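import Pool.Agent.Run7.h744.DD.FinP

/-!
Project DD: the zero flow is a strong solution.
-/

set_option autoImplicit false
set_option maxHeartbeats 4000000

open MeasureTheory Set Filter Topology
open scoped InnerProductSpace ContDiff

namespace Run7.h744.DD

open H772R2.NS.Pub

theorem zero_ae {Ω : Set R3} {E : Type} [NormedAddCommGroup E] :
    (0 : L2 Ω E).fn =ᵐ[volume.restrict Ω] fun _ => 0 :=
  Lp.coeFn_zero E 2 ((volume : Measure R3).restrict Ω)

theorem isTest_zero (Ω : Set R3) : IsTest Ω (fun _ => (0 : R3)) := by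
  refine ⟨contDiff_const, HasCompactSupport.zero, ?_, ?_⟩
  · rw [show tsupport (fun _ : R3 => (0 : R3)) = ∅ from by
      rw [tsupport_eq_empty_iff]; rfl]
    exact Set.empty_subset _
  · intro x
    unfold dvg
    refine Finset.sum_eq_zero fun i _ => ?_
    rw [fderiv_const_apply]
    exact inner_zero_right _

theorem jac_zero : jac (fun _ => (0 : R3)) = fun _ => (0 : Mat) := by
  funext x
  unfold jac
  have : (fun p : Fin 3 × Fin 3 => ⟪e p.1, fderiv ℝ (fun _ => (0 : R3)) x (e p.2)⟫_ℝ)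
      = fun _ => (0 : ℝ) := by
    funext p
    rw [fderiv_const_apply]
    exact inner_zero_right _
  rw [this]
  rfl

theorem zero_mem_graph (Ω : Set R3) : ((0 : L2 Ω R3), (0 : L2 Ω Mat)) ∈ H1graph Ω := by
  refine subset_closure ⟨fun _ => 0, isTest_zero Ω, zero_ae, ?_⟩
  rw [jac_zero]
  exact zero_ae

theorem strong_zero (Ω : Set R3) (ν T : ℝ) :
    IsStrong Ω ν T (fun _ => 0) (fun _ => 0) (fun _ => 0) (fun _ => 0) (fun _ => 0) := by
  refine ⟨fun _ _ => zero_mem_graph Ω, Eventually.of_forall fun _ => zero_mem_graph Ω,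
    ⟨MemLp.zero, fun a b _ _ _ => ?_⟩, ⟨MemLp.zero, fun a b _ _ _ => ?_⟩,
    ⟨0, Eventually.of_forall fun _ => norm_zero.le⟩, ?_⟩
  · rw [sub_zero]
    exact (intervalIntegral.integral_zero).symm
  · rw [sub_zero]
    exact (intervalIntegral.integral_zero).symm
  · intro φ hφ t ht
    rw [sub_self]
    have h1 : (∫ x in Ω, ⟪(0 : L2 Ω R3).fn x, fderiv ℝ φ x ((0 : L2 Ω R3).fn x)⟫_ℝ) = 0 := by
      rw [integral_congr_ae (g := fun _ => (0 : ℝ)), integral_zero]
      filter_upwards [zero_ae (Ω := Ω) (E := R3)] with x hx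
      rw [hx]
      exact inner_zero_left _
    have h2 : (∫ x in Ω, ⟪(0 : L2 Ω Mat).fn x, jac φ x⟫_ℝ) = 0 := by
      rw [integral_congr_ae (g := fun _ => (0 : ℝ)), integral_zero]
      filter_upwards [zero_ae (Ω := Ω) (E := Mat)] with x hx
      rw [hx]
      exact inner_zero_left _
    have h3 : ∀ s : ℝ, rhs ν (0 : L2 Ω R3) (0 : L2 Ω Mat) (0 : L2 Ω Mat) φ = 0 := by
      intro s
      unfold rhs
      rw [h1, h2]
      ring
    rw [show (fun s : ℝ => rhs ν (0 : L2 Ω R3) (0 : L2 Ω Mat) (0 : L2 Ω Mat) φ)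
      = fun _ => (0 : ℝ) from funext h3]
    exact (intervalIntegral.integral_zero).symm

end Run7.h744.DD
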