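import Pool.Agent.Run7.h744.DD.Iface
import Pool.Agent.W795.TQ.DFin
import Pool.Agent.W52.TQ.Loc

/-!
Project DD, piece CONT: continuation near a global strong solution.
-/

set_option autoImplicit false
set_option linter.unusedSectionVars false
set_option maxHeartbeats 4000000

open MeasureTheory Set Filter Topology
open scoped InnerProductSpace ContDiff

namespace Run7.h744.DD

open Pool.Agent.W795.TQ (Str Univ FH)
open H772R2.NSR (Frame prim_cont ii_of_cont)

/-- Chebyshev -/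
theorem cheb {a b M : ℝ} (hab : a < b) {f : ℝ → ℝ} (hf : ContinuousOn f (Icc a b))
    (hM : ∫ s in a..b, f s ≤ M) : ∃ t0 ∈ Icc a b, f t0 ≤ M / (b - a) := by
  obtain ⟨t0, ht0, hmin⟩ := isCompact_Icc.exists_isMinOn (nonempty_Icc.2 hab.le) hf
  refine ⟨t0, ht0, ?_⟩
  have h1 : ∫ _s in a..b, f t0 ≤ ∫ s in a..b, f s := by
    refine intervalIntegral.integral_mono_on hab.le intervalIntegrable_const ?_ ?_
    · apply ContinuousOn.intervalIntegrable
      rwa [uIcc_of_le hab.le]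
    · intro s hs
      exact hmin hs
  rw [intervalIntegral.integral_const, smul_eq_mul] at h1
  rw [le_div_iff₀ (by linarith)]
  linarith

/-- a small number -/
theorem exists_small {A B : ℝ} (hA : 0 < A) (hB : 0 < B) : ∃ x : ℝ, 0 < x ∧ x ≤ A ∧ x ^ 2 ≤ B := by
  refine ⟨min A (Real.sqrt B), lt_min hA (Real.sqrt_pos.2 hB), min_le_left _ _, ?_⟩
  have h0 : 0 ≤ min A (Real.sqrt B) := (lt_min hA (Real.sqrt_pos.2 hB)).le
  calc min A (Real.sqrt B) ^ 2 ≤ (Real.sqrt B) ^ 2 := by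
        gcongr
        exact min_le_right _ _
    _ = B := Real.sq_sqrt hB.le

section

variable {H K : Type} [NormedAddCommGroup H] [InnerProductSpace ℝ H] [CompleteSpace H]
  [NormedAddCommGroup K] [InnerProductSpace ℝ K] [CompleteSpace K]
  {W : Submodule ℝ (H × K)} {m : H → K} {C c ν T : ℝ} {u u1 U U1 : ℝ → H} {z z1 Y Y1 : ℝ → K}

theorem zcont (S : Str W m ν T (fun _ => 0) u u1 z z1) : ContinuousOn z (Icc 0 T) :=
  prim_cont S.z1m S.pz

theorem ucont (S : Str W m ν T (fun _ => 0) u u1 z z1) : ContinuousOn u (Icc 0 T) :=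
  prim_cont S.u1m S.pu

/-- energy equality between two times -/
theorem energy2 (S : Str W m ν T (fun _ => 0) u u1 z z1) {s t : ℝ} (hs : 0 ≤ s) (hst : s ≤ t)
    (ht : t ≤ T) : ‖u t‖ ^ 2 / 2 + ν * (∫ r in s..t, ‖z r‖ ^ 2) = ‖u s‖ ^ 2 / 2 := by
  have e1 := S.energy s ⟨hs, hst.trans ht⟩
  have e2 := S.energy t ⟨hs.trans hst, ht⟩
  simp only [inner_zero_left, intervalIntegral.integral_zero, add_zero] at e1 e2
  have hz : ContinuousOn (fun r => ‖z r‖ ^ 2) (Icc 0 T) := (zcont S).norm.pow 2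
  have e3 := intervalIntegral.integral_add_adjacent_intervals
    (ii_of_cont hz le_rfl hs (hst.trans ht)) (ii_of_cont hz hs hst ht)
  rw [← e3] at e2
  linarith

theorem norm_anti (hν : 0 < ν) (S : Str W m ν T (fun _ => 0) u u1 z z1) {s t : ℝ} (hs : 0 ≤ s)
    (hst : s ≤ t) (ht : t ≤ T) : ‖u t‖ ≤ ‖u s‖ := by
  have e := energy2 S hs hst ht
  have h : 0 ≤ ∫ r in s..t, ‖z r‖ ^ 2 :=
    intervalIntegral.integral_nonneg hst fun r _ => by positivity
  have h2 : 0 ≤ ν * ∫ r in s..t, ‖z r‖ ^ 2 := mul_nonneg hν.le h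
  have h3 : ‖u t‖ ^ 2 ≤ ‖u s‖ ^ 2 := by linarith
  exact (pow_le_pow_iff_left₀ (norm_nonneg _) (norm_nonneg _) (by norm_num)).1 h3

/-- decay of a global solution -/
theorem decay (Fr : Frame W m C) (hν : 0 < ν) (G : Glob W m ν U U1 Y Y1) {η : ℝ} (hη : 0 < η) :
    ∃ T0 : ℝ, 1 ≤ T0 ∧ ∀ t, T0 ≤ t → ‖U t‖ ≤ η := by
  have hC := Fr.C0
  set T0 : ℝ := C ^ 2 * ‖U 0‖ ^ 2 / (2 * ν * η ^ 2) + 1 with hT0
  have h0 : 0 ≤ C ^ 2 * ‖U 0‖ ^ 2 / (2 * ν * η ^ 2) := by positivity
  have hT01 : 1 ≤ T0 := by rw [hT0]; linarith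
  refine ⟨T0, hT01, ?_⟩
  intro t ht
  by_contra hcon
  push Not at hcon
  have htpos : 0 < t := by linarith
  have S := G t htpos
  have e := energy2 S le_rfl htpos.le le_rfl
  have h1 : ∫ r in (0 : ℝ)..t, (η ^ 2 / C ^ 2 : ℝ) ≤ ∫ r in (0 : ℝ)..t, ‖Y r‖ ^ 2 := by
    refine intervalIntegral.integral_mono_on htpos.le intervalIntegrable_const
      (ii_of_cont ((zcont S).norm.pow 2) le_rfl htpos.le le_rfl) ?_
    intro r hr
    have k1 : η ≤ ‖U r‖ := hcon.le.trans (norm_anti hν S hr.1 hr.2 le_rfl)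
    have k2 := Fr.poinc _ (S.mem r hr)
    simp only at k2
    have k3 : η ≤ C * ‖Y r‖ := k1.trans k2
    rw [div_le_iff₀ (by positivity)]
    calc η ^ 2 ≤ (C * ‖Y r‖) ^ 2 := by gcongr
      _ = ‖Y r‖ ^ 2 * C ^ 2 := by ring
  rw [intervalIntegral.integral_const, smul_eq_mul, sub_zero] at h1
  have h2 : ν * (t * (η ^ 2 / C ^ 2)) ≤ ‖U 0‖ ^ 2 / 2 := by
    have := mul_le_mul_of_nonneg_left h1 hν.le
    have h3 : 0 ≤ ‖U t‖ ^ 2 / 2 := by positivity
    linarith
  have h3 : t ≤ C ^ 2 * ‖U 0‖ ^ 2 / (2 * ν * η ^ 2) := by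
    rw [le_div_iff₀ (by positivity)]
    have h4 : ν * (t * (η ^ 2 / C ^ 2)) * (2 * C ^ 2) = t * (2 * ν * η ^ 2) := by
      field_simp
    have h5 : ν * (t * (η ^ 2 / C ^ 2)) * (2 * C ^ 2) ≤ ‖U 0‖ ^ 2 / 2 * (2 * C ^ 2) := by gcongr
    rw [h4] at h5
    linarith
  linarith

end


theorem ii_sub {T : ℝ} {f : ℝ → ℝ} (hf : ContinuousOn f (Icc 0 T)) (h0 : ∀ s, 0 ≤ f s)
    {a a' b' b : ℝ} (ha : 0 ≤ a) (haa : a ≤ a') (hab : a' ≤ b') (hbb : b' ≤ b) (hb : b ≤ T) :
    ∫ s in a'..b', f s ≤ ∫ s in a..b, f s := by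
  have i1 := ii_of_cont hf ha haa ((hab.trans hbb).trans hb)
  have i2 := ii_of_cont hf (ha.trans haa) hab (hbb.trans hb)
  have i3 := ii_of_cont hf ((ha.trans haa).trans hab) hbb hb
  have e1 := intervalIntegral.integral_add_adjacent_intervals i1 i2
  have e2 := intervalIntegral.integral_add_adjacent_intervals (i1.trans i2) i3
  have n1 : 0 ≤ ∫ s in a..a', f s := intervalIntegral.integral_nonneg haa fun s _ => h0 s
  have n3 : 0 ≤ ∫ s in b'..b, f s := intervalIntegral.integral_nonneg hbb fun s _ => h0 s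
  linarith

/-- CONT -/
theorem t_CONT : S_WIN → S_GLU → S_REL → S_CONT := by
  intro hWIN hGLU hREL H K _ _ _ _ _ _ W m C c ν U U1 Y Y1 Fr Un hcomp hν hU η hη
  have hc := Un.c0
  obtain ⟨ε, C7, hε, hC7, hwin0⟩ := hWIN c hc
  set e0 : ℝ := ε * ν ^ (3 / 2 : ℝ) with he0d
  have he0 : 0 < e0 := by positivity
  obtain ⟨η1, hη1, h1a, h1b⟩ := exists_small (A := η / 3)
    (B := min (ν * η ^ 2 / 10) (ν * e0 / 4)) (by positivity) (lt_min (by positivity) (by positivity))
  have h1c : η1 ^ 2 ≤ ν * η ^ 2 / 10 := h1b.trans (min_le_left _ _)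
  have h1d : η1 ^ 2 ≤ ν * e0 / 4 := h1b.trans (min_le_right _ _)
  obtain ⟨T0, hT0, hdec⟩ := decay Fr hν hU hη1
  set T2 : ℝ := T0 + 1 with hT2
  have hT2p : 0 < T2 := by linarith
  have SU : Str W m ν T2 (fun _ => 0) U U1 Y Y1 := hU T2 hT2p
  obtain ⟨Z, hZ1, hZ⟩ : ∃ Z : ℝ, 1 ≤ Z ∧ ∀ t ∈ Icc 0 T2, ‖Y t‖ ≤ Z := by
    obtain ⟨B, hB⟩ := (isCompact_Icc.image_of_continuousOn (zcont SU)).isBounded.exists_norm_le
    exact ⟨max B 1, le_max_right _ _, fun t ht => (hB _ ⟨t, ht, rfl⟩).trans (le_max_left _ _)⟩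
  set k : ℝ := c ^ 4 * Z ^ 4 / ν ^ 3 with hk
  have hk0 : 0 ≤ k := by positivity
  set G : ℝ := Real.exp (2 * k * T2) * (1 + 2 * k * T2) with hGd
  have hG1 : 1 ≤ G := by
    have h1 : 1 ≤ Real.exp (2 * k * T2) := Real.one_le_exp (by positivity)
    have h2 : 1 ≤ 1 + 2 * k * T2 := by
      have : 0 ≤ 2 * k * T2 := by positivity
      linarith
    calc (1 : ℝ) = 1 * 1 := by ring
      _ ≤ G := by rw [hGd]; gcongr
  have hG0 : 0 < G := by linarith
  have hZ0 : 0 < Z := by linarith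
  set s2 : ℝ := min 1 (e0 ^ 2 / (16 * Z ^ 4)) with hs2d
  have hs2 : 0 < s2 := lt_min one_pos (by positivity)
  set μ : ℝ := min e0 (Real.sqrt s2) with hμd
  have hμ : 0 < μ := lt_min he0 (Real.sqrt_pos.2 hs2)
  obtain ⟨δ, hδ, hδ1, hδ2⟩ := exists_small (A := 1)
    (B := min (η1 ^ 2 / G) (min (ν * η ^ 2 / (2 * G)) (ν * e0 * μ / (8 * G)))) one_pos
    (lt_min (by positivity) (lt_min (by positivity) (by positivity)))
  have hδa : G * δ ^ 2 ≤ η1 ^ 2 := by
    have := hδ2.trans (min_le_left _ _)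
    rw [le_div_iff₀ hG0] at this
    linarith
  have hδb : G * δ ^ 2 ≤ ν * η ^ 2 / 2 := by
    have := hδ2.trans ((min_le_right _ _).trans (min_le_left _ _))
    rw [le_div_iff₀ (by positivity)] at this
    linarith
  have hδc : 8 * (G * δ ^ 2) ≤ ν * e0 * μ := by
    have := hδ2.trans ((min_le_right _ _).trans (min_le_right _ _))
    rw [le_div_iff₀ (by positivity)] at this
    linarith
  refine ⟨δ, hδ, ?_⟩
  intro t1 N0 N1 x0 g0 z0 ht1 ht1δ hN1 h0 hg hz0 hyp
  have hN1p : 0 < N1 := by linarith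
  have ht1T : t1 ≤ T0 := by linarith
  -- the relative estimate
  have rel : ∀ (t : ℝ) (u u1 : ℝ → H) (z z1 : ℝ → K), 0 < t →
      Str W m ν t (fun _ => 0) u u1 z z1 → u 0 = x0 → t1 ≤ t → t ≤ T2 →
      ‖u t - U t‖ ^ 2 + ν * (∫ r in t1..t, ‖z r - Y r‖ ^ 2) ≤ G * (δ ^ 2 / N1 ^ 2) := by
    intro t u u1 z z1 ht S hu0 h1t htT2
    have h1 := hREL H K W m C c ν t Z u u1 U U1 z z1 Y Y1 Fr Un hν ht S (hU t ht)
      (fun s hs => hZ s ⟨hs.1, hs.2.trans htT2⟩) t1 t ht1 h1t le_rfl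
    have h2 := (hyp t u u1 z z1 ht S hu0).2 h1t
    have h3 : ‖u t1 - U t1‖ ^ 2 ≤ δ ^ 2 / N1 ^ 2 := by
      rw [le_div_iff₀ (by positivity), ← mul_pow]
      have h4 : 0 ≤ ‖u t1 - U t1‖ * N1 := by positivity
      exact pow_le_pow_left₀ h4 h2.2 2
    have h5 : t - t1 ≤ T2 := by linarith
    have h6 : 0 ≤ t - t1 := by linarith
    have h7 : Real.exp (2 * (c ^ 4 * Z ^ 4 / ν ^ 3) * (t - t1))
        * (1 + 2 * (c ^ 4 * Z ^ 4 / ν ^ 3) * (t - t1)) ≤ G := by
      rw [← hk, hGd]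
      gcongr
    calc _ ≤ _ := h1
      _ = ‖u t1 - U t1‖ ^ 2 * (Real.exp (2 * (c ^ 4 * Z ^ 4 / ν ^ 3) * (t - t1))
        * (1 + 2 * (c ^ 4 * Z ^ 4 / ν ^ 3) * (t - t1))) := by ring
      _ ≤ δ ^ 2 / N1 ^ 2 * G := by
          refine mul_le_mul h3 h7 ?_ (by positivity)
          have : 0 ≤ 2 * (c ^ 4 * Z ^ 4 / ν ^ 3) * (t - t1) := by positivity
          positivity
      _ = _ := by ring
  have hGN : G * (δ ^ 2 / N1 ^ 2) ≤ G * δ ^ 2 := by
    have : δ ^ 2 / N1 ^ 2 ≤ δ ^ 2 := div_le_self (by positivity) (one_le_pow₀ hN1)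
    gcongr
  set s1 : ℝ := e0 ^ 2 / N1 ^ 4 with hs1d
  have hs1 : 0 < s1 := by positivity
  have hms : 0 < min s1 s2 := lt_min hs1 hs2
  set B1 : ℝ := 2 * Z ^ 2 + 4 * (G * δ ^ 2) / (ν * N1 ^ 2 * min s1 s2) with hB1
  have hB10 : 0 < B1 := by positivity
  set N : ℝ := N0 + N1 + Real.sqrt (C7 * N1 ^ 2) + Real.sqrt (C7 * B1)
    + Real.sqrt (C7 * (4 * η1 ^ 2 / ν)) + 1 with hN
  have hN00 : 0 < N0 := (norm_nonneg _).trans_lt hz0
  have q1 := Real.sqrt_nonneg (C7 * N1 ^ 2)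
  have q2 := Real.sqrt_nonneg (C7 * B1)
  have q3 := Real.sqrt_nonneg (C7 * (4 * η1 ^ 2 / ν))
  have hlt : ∀ {x B : ℝ}, x ^ 2 ≤ B → x ≤ Real.sqrt B := fun {x B} h => Real.le_sqrt_of_sq_le h
  -- the bound
  have claim : ∀ (τ : ℝ) (u u1 : ℝ → H) (z z1 : ℝ → K), 0 < τ →
      Str W m ν τ (fun _ => 0) u u1 z z1 → u 0 = x0 → ∀ t ∈ Icc 0 τ, ‖z t‖ < N := by
    intro τ u u1 z z1 hτ S0 hu0 t ht
    rcases le_or_gt t t1 with h | h
    · have := (hyp τ u u1 z z1 hτ S0 hu0).1 t ht h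
      linarith
    have htp : 0 < t := by linarith
    have S : Str W m ν t (fun _ => 0) u u1 z z1 := S0.mono ht.2
    have hwin := hwin0 H K W m C ν t u u1 z z1 Fr Un hν htp S
    rcases le_or_gt t T2 with h2 | h2
    · rcases le_or_gt (t - t1) s1 with h3 | h3
      · -- window from `t1`
        have k1 := ((hyp t u u1 z z1 htp S hu0).2 h.le).1
        have k2 : ‖z t1‖ ^ 2 * Real.sqrt (t - t1) ≤ ε * ν ^ (3 / 2 : ℝ) := by
          rw [← he0d]
          calc ‖z t1‖ ^ 2 * Real.sqrt (t - t1) ≤ N1 ^ 2 * Real.sqrt s1 := by gcongr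
            _ = e0 := by
              rw [hs1d, Real.sqrt_div (by positivity), Real.sqrt_sq he0.le,
                show N1 ^ 4 = (N1 ^ 2) ^ 2 by ring, Real.sqrt_sq (by positivity)]
              field_simp
        have k3 := hwin t1 t ht1 h le_rfl k2
        have k4 : ‖z t‖ ^ 2 ≤ C7 * N1 ^ 2 := k3.trans (by gcongr)
        have k5 := hlt k4
        linarith
      · -- Chebyshev window
        set s' : ℝ := min (t - t1) s2 with hs'
        have hs'0 : 0 < s' := lt_min (by linarith) hs2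
        have hs't : s' ≤ t - t1 := min_le_left _ _
        have hs's : s' ≤ s2 := min_le_right _ _
        have hs'm : min s1 s2 ≤ s' := by
          rw [hs']
          exact min_le_min_right _ h3.le
        have hrel := rel t u u1 z z1 htp S hu0 h.le h2
        have hzY : ContinuousOn (fun r => ‖z r - Y r‖ ^ 2) (Icc 0 t) :=
          (((zcont S).sub ((zcont SU).mono (Icc_subset_Icc_right h2))).norm).pow 2
        have hIle : ∫ r in (t - s')..(t - s' / 2), ‖z r - Y r‖ ^ 2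
            ≤ G * δ ^ 2 / (ν * N1 ^ 2) := by
          have k1 := ii_sub hzY (fun s => by positivity) ht1 (a' := t - s') (b' := t - s' / 2)
            (b := t) (by linarith) (by linarith) (by linarith) le_rfl
          refine k1.trans ?_
          rw [le_div_iff₀ (by positivity)]
          have k2 : ν * (∫ r in t1..t, ‖z r - Y r‖ ^ 2) ≤ G * (δ ^ 2 / N1 ^ 2) := by
            have : 0 ≤ ‖u t - U t‖ ^ 2 := by positivity
            linarith
          calc (∫ r in t1..t, ‖z r - Y r‖ ^ 2) * (ν * N1 ^ 2)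
              = (ν * (∫ r in t1..t, ‖z r - Y r‖ ^ 2)) * N1 ^ 2 := by ring
            _ ≤ (G * (δ ^ 2 / N1 ^ 2)) * N1 ^ 2 := by gcongr
            _ = G * δ ^ 2 := by field_simp
        obtain ⟨t0, ht0, hct⟩ := cheb (a := t - s') (b := t - s' / 2) (by linarith)
          (hzY.mono (Icc_subset_Icc (by linarith) (by linarith))) hIle
        have hB0 : ‖z t0‖ ^ 2 ≤ 2 * Z ^ 2 + 4 * (G * δ ^ 2) / (ν * N1 ^ 2 * s') := by
          have k1 : ‖z t0‖ ≤ ‖Y t0‖ + ‖z t0 - Y t0‖ := by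
            have := norm_add_le (Y t0) (z t0 - Y t0)
            rwa [add_sub_cancel] at this
          have k2 : ‖Y t0‖ ≤ Z := hZ t0 ⟨by linarith [ht0.1], by linarith [ht0.2]⟩
          have k3 : ‖z t0‖ ^ 2 ≤ 2 * Z ^ 2 + 2 * ‖z t0 - Y t0‖ ^ 2 := by
            have k4 : ‖z t0‖ ≤ Z + ‖z t0 - Y t0‖ := by linarith
            have k5 : 0 ≤ ‖z t0‖ := norm_nonneg _
            nlinarith [sq_nonneg (Z - ‖z t0 - Y t0‖)]
          have k6 : 2 * ‖z t0 - Y t0‖ ^ 2 ≤ 4 * (G * δ ^ 2) / (ν * N1 ^ 2 * s') := by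
            have e1 : 4 * (G * δ ^ 2) / (ν * N1 ^ 2 * s')
                = 2 * (G * δ ^ 2 / (ν * N1 ^ 2) / (t - s' / 2 - (t - s'))) := by
              have : t - s' / 2 - (t - s') = s' / 2 := by ring
              rw [this]
              field_simp
              ring
            rw [e1]
            linarith
          linarith
        have hsq : ‖z t0‖ ^ 2 * Real.sqrt (t - t0) ≤ ε * ν ^ (3 / 2 : ℝ) := by
          rw [← he0d]
          have k1 : t - t0 ≤ s' := by linarith [ht0.1]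
          have hss : 0 < Real.sqrt s' := Real.sqrt_pos.2 hs'0
          have hsss : Real.sqrt s' * Real.sqrt s' = s' := Real.mul_self_sqrt hs'0.le
          have k2 : 2 * Z ^ 2 * Real.sqrt s' ≤ e0 / 2 := by
            have k3 : Real.sqrt s' ≤ e0 / (4 * Z ^ 2) := by
              rw [show e0 / (4 * Z ^ 2) = Real.sqrt ((e0 / (4 * Z ^ 2)) ^ 2) from
                (Real.sqrt_sq (by positivity)).symm]
              apply Real.sqrt_le_sqrt
              refine hs's.trans ((min_le_right _ _).trans (le_of_eq ?_))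
              field_simp
              norm_num
            calc 2 * Z ^ 2 * Real.sqrt s' ≤ 2 * Z ^ 2 * (e0 / (4 * Z ^ 2)) := by gcongr
              _ = e0 / 2 := by field_simp; norm_num
          have k4 : μ ≤ N1 ^ 2 * Real.sqrt s' := by
            have k5 : Real.sqrt (min s1 s2) ≤ Real.sqrt s' := Real.sqrt_le_sqrt hs'm
            rcases min_choice s1 s2 with h6 | h6
            · rw [h6] at k5
              calc μ ≤ e0 := min_le_left _ _
                _ = N1 ^ 2 * Real.sqrt s1 := by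
                  rw [hs1d, Real.sqrt_div (by positivity), Real.sqrt_sq he0.le,
                    show N1 ^ 4 = (N1 ^ 2) ^ 2 by ring, Real.sqrt_sq (by positivity)]
                  field_simp
                _ ≤ _ := by gcongr
            · rw [h6] at k5
              calc μ ≤ Real.sqrt s2 := min_le_right _ _
                _ ≤ Real.sqrt s' := k5
                _ ≤ N1 ^ 2 * Real.sqrt s' := le_mul_of_one_le_left hss.le (one_le_pow₀ hN1)
          have k6 : 4 * (G * δ ^ 2) / (ν * N1 ^ 2 * s') * Real.sqrt s' ≤ e0 / 2 := by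
            have e1 : 4 * (G * δ ^ 2) / (ν * N1 ^ 2 * s') * Real.sqrt s'
                = 4 * (G * δ ^ 2) / (ν * (N1 ^ 2 * Real.sqrt s')) := by
              rw [← hsss]
              field_simp
              rw [Real.sqrt_sq hss.le]
            rw [e1, div_le_iff₀ (by positivity)]
            calc 4 * (G * δ ^ 2) ≤ ν * e0 * μ / 2 := by linarith
              _ ≤ ν * e0 * (N1 ^ 2 * Real.sqrt s') / 2 := by gcongr
              _ = e0 / 2 * (ν * (N1 ^ 2 * Real.sqrt s')) := by ring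
          calc ‖z t0‖ ^ 2 * Real.sqrt (t - t0)
              ≤ (2 * Z ^ 2 + 4 * (G * δ ^ 2) / (ν * N1 ^ 2 * s')) * Real.sqrt s' := by gcongr
            _ = 2 * Z ^ 2 * Real.sqrt s'
                + 4 * (G * δ ^ 2) / (ν * N1 ^ 2 * s') * Real.sqrt s' := by ring
            _ ≤ e0 := by linarith
        have k1 := hwin t0 t (by linarith [ht0.1]) (by linarith [ht0.2]) le_rfl hsq
        have k2 : ‖z t‖ ^ 2 ≤ C7 * B1 := by
          refine k1.trans ?_
          have : ‖z t0‖ ^ 2 ≤ B1 := by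
            refine hB0.trans ?_
            rw [hB1]
            gcongr
          gcongr
        have k3 := hlt k2
        linarith
    · -- late times
      have hT0p : 0 < T0 := by linarith
      have S1 : Str W m ν T0 (fun _ => 0) u u1 z z1 := S.mono (by linarith)
      have r1 := rel T0 u u1 z z1 hT0p S1 hu0 ht1T (by linarith)
      have r2 : ‖u T0 - U T0‖ ≤ η1 := by
        have k1 : ‖u T0 - U T0‖ ^ 2 ≤ η1 ^ 2 := by
          have : 0 ≤ ν * ∫ r in t1..T0, ‖z r - Y r‖ ^ 2 :=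
            mul_nonneg hν.le (intervalIntegral.integral_nonneg ht1T fun s _ => by positivity)
          linarith
        exact (pow_le_pow_iff_left₀ (norm_nonneg _) hη1.le (by norm_num)).1 k1
      have r3 : ‖u T0‖ ≤ 2 * η1 := by
        have k1 := norm_add_le (U T0) (u T0 - U T0)
        rw [add_sub_cancel] at k1
        have k2 := hdec T0 le_rfl
        linarith
      have e := energy2 S (s := T0) (t := t) (by linarith) (by linarith) le_rfl
      have hz2 : ContinuousOn (fun r => ‖z r‖ ^ 2) (Icc 0 t) := (zcont S).norm.pow 2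
      have hI : ∫ r in (t - 1)..(t - 1 / 2), ‖z r‖ ^ 2 ≤ 2 * η1 ^ 2 / ν := by
        have k1 := ii_sub hz2 (fun s => by positivity) (a := T0) (a' := t - 1) (b' := t - 1 / 2)
          (b := t) (by linarith) (by linarith) (by linarith) (by linarith) le_rfl
        refine k1.trans ?_
        rw [le_div_iff₀ hν]
        have k2 : 0 ≤ ‖u t‖ ^ 2 / 2 := by positivity
        have k3 : ‖u T0‖ ^ 2 ≤ (2 * η1) ^ 2 := by gcongr
        nlinarith
      obtain ⟨t0, ht0, hct⟩ := cheb (a := t - 1) (b := t - 1 / 2) (by linarith)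
        (hz2.mono (Icc_subset_Icc (by linarith) (by linarith))) hI
      have hct' : ‖z t0‖ ^ 2 ≤ 4 * η1 ^ 2 / ν := by
        refine hct.trans (le_of_eq ?_)
        field_simp
        ring
      have hsq : ‖z t0‖ ^ 2 * Real.sqrt (t - t0) ≤ ε * ν ^ (3 / 2 : ℝ) := by
        rw [← he0d]
        have k1 : Real.sqrt (t - t0) ≤ 1 := by
          have k0 : t - t0 ≤ 1 := by linarith [ht0.1]
          exact (Real.sqrt_le_sqrt k0).trans_eq Real.sqrt_one
        have k2 : 4 * η1 ^ 2 / ν ≤ e0 := by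
          rw [div_le_iff₀ hν]
          linarith
        calc ‖z t0‖ ^ 2 * Real.sqrt (t - t0) ≤ (4 * η1 ^ 2 / ν) * 1 := by gcongr
          _ ≤ e0 := by linarith
      have k1 := hwin t0 t (by linarith [ht0.1]) (by linarith [ht0.2]) le_rfl hsq
      have k2 : ‖z t‖ ^ 2 ≤ C7 * (4 * η1 ^ 2 / ν) := k1.trans (by gcongr)
      have k3 := hlt k2
      linarith
  -- existence
  have hex : ∀ T : ℝ, 0 < T → ∃ (u u1 : ℝ → H) (z z1 : ℝ → K),
      Str W m ν T (fun _ => 0) u u1 z z1 ∧ u 0 = x0 := by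
    intro T hT
    have hF : FH T (fun _ => (0 : K)) (fun _ => (0 : K)) := ⟨MemLp.zero' , fun a b _ _ _ => by simp⟩
    obtain ⟨τ, u, u1, z, z1, hτ, hτT, S, hu0, hor⟩ := Pool.Agent.W52.TQ.proof_loc H K W m C ν T
      (fun _ => 0) (fun _ => 0) x0 g0 z0 N Fr hcomp hν hT hF h0
      (fun p hp => by rw [zero_sub]; exact hg p hp) (by linarith)
    rcases hor with h | h
    · subst h
      exact ⟨u, u1, z, z1, S, hu0⟩
    · exact absurd h (not_le.2 (claim τ u u1 z z1 hτ S hu0 τ ⟨hτ.le, le_rfl⟩))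
  obtain ⟨u, u1, z, z1, hu0, hglob⟩ := hGLU H K W m C ν x0 Fr hν hex
  refine ⟨u, u1, z, z1, hu0, hglob, ?_⟩
  -- closeness
  have close : ∀ t, t1 ≤ t → t ≤ T2 → ‖u t - U t‖ ^ 2 ≤ η1 ^ 2 ∧
      (∫ r in t1..t, ‖z r - Y r‖ ^ 2) ≤ η ^ 2 / 2 := by
    intro t h1 h2
    rcases (ht1.trans h1).eq_or_lt with h | h
    · -- `t = 0`
      have ht10 : t1 = t := by linarith
      have S := hglob 1 one_pos
      have k1 := (hyp 1 u u1 z z1 one_pos S hu0).2 (by linarith)
      rw [ht10] at k1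
      rw [ht10, intervalIntegral.integral_same]
      refine ⟨?_, by positivity⟩
      have k2 : ‖u t - U t‖ ≤ δ := by
        have : ‖u t - U t‖ * 1 ≤ ‖u t - U t‖ * N1 := by gcongr
        linarith [k1.2]
      have k3 : ‖u t - U t‖ ^ 2 ≤ δ ^ 2 := by gcongr
      have k4 : δ ^ 2 ≤ G * δ ^ 2 := le_mul_of_one_le_left (by positivity) hG1
      linarith
    have S := hglob t h
    have r1 := rel t u u1 z z1 h S hu0 h1 h2
    have n1 : 0 ≤ ‖u t - U t‖ ^ 2 := by positivity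
    have n2 : 0 ≤ ν * ∫ r in t1..t, ‖z r - Y r‖ ^ 2 :=
      mul_nonneg hν.le (intervalIntegral.integral_nonneg h1 fun s _ => by positivity)
    refine ⟨by linarith, ?_⟩
    have : ν * (∫ r in t1..t, ‖z r - Y r‖ ^ 2) ≤ ν * (η ^ 2 / 2) := by linarith
    exact le_of_mul_le_mul_left this hν
  intro t h1
  rcases le_or_gt t T2 with h2 | h2
  · obtain ⟨k1, k2⟩ := close t h1 h2
    refine ⟨?_, ?_⟩
    · have k3 := (pow_le_pow_iff_left₀ (norm_nonneg _) hη1.le (by norm_num)).1 k1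
      linarith
    · have : 0 ≤ η ^ 2 := by positivity
      linarith
  · have hT0p : 0 < T0 := by linarith
    have htp : 0 < t := by linarith
    obtain ⟨k1, k2⟩ := close T0 ht1T (by linarith)
    have k3 := (pow_le_pow_iff_left₀ (norm_nonneg _) hη1.le (by norm_num)).1 k1
    have r3 : ‖u T0‖ ≤ 2 * η1 := by
      have k1 := norm_add_le (U T0) (u T0 - U T0)
      rw [add_sub_cancel] at k1
      have k2 := hdec T0 le_rfl
      linarith
    have S := hglob t htp
    have SUt := hU t htp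
    have a1 := norm_anti hν S hT0p.le (by linarith) le_rfl
    have a2 := hdec t (by linarith)
    refine ⟨?_, ?_⟩
    · have := norm_sub_le (u t) (U t)
      linarith
    · have e1 := energy2 S (s := T0) (t := t) hT0p.le (by linarith) le_rfl
      have e2 := energy2 SUt (s := T0) (t := t) hT0p.le (by linarith) le_rfl
      have cz : ContinuousOn (fun r => ‖z r‖ ^ 2) (Icc 0 t) := (zcont S).norm.pow 2
      have cY : ContinuousOn (fun r => ‖Y r‖ ^ 2) (Icc 0 t) := (zcont SUt).norm.pow 2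
      have cd : ContinuousOn (fun r => ‖z r - Y r‖ ^ 2) (Icc 0 t) :=
        (((zcont S).sub (zcont SUt)).norm).pow 2
      have j1 : ∫ r in T0..t, ‖z r - Y r‖ ^ 2 ≤ ∫ r in T0..t, (2 * ‖z r‖ ^ 2 + 2 * ‖Y r‖ ^ 2) := by
        refine intervalIntegral.integral_mono_on (by linarith)
          (ii_of_cont cd hT0p.le (by linarith) le_rfl)
          (((ii_of_cont cz hT0p.le (by linarith) le_rfl).const_mul 2).add
            ((ii_of_cont cY hT0p.le (by linarith) le_rfl).const_mul 2)) ?_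
        intro s _
        have k1 := norm_sub_le (z s) (Y s)
        have k2 : ‖z s - Y s‖ ^ 2 ≤ (‖z s‖ + ‖Y s‖) ^ 2 := by gcongr
        nlinarith [sq_nonneg (‖z s‖ - ‖Y s‖)]
      rw [intervalIntegral.integral_add ((ii_of_cont cz hT0p.le (by linarith) le_rfl).const_mul 2)
        ((ii_of_cont cY hT0p.le (by linarith) le_rfl).const_mul 2),
        intervalIntegral.integral_const_mul, intervalIntegral.integral_const_mul] at j1
      have e3 := intervalIntegral.integral_add_adjacent_intervals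
        (ii_of_cont cd ht1 ht1T (by linarith)) (ii_of_cont cd hT0p.le (by linarith : T0 ≤ t) le_rfl)
      rw [← e3]
      have b1 : ‖u T0‖ ^ 2 ≤ (2 * η1) ^ 2 := by gcongr
      have b2 : ‖U T0‖ ^ 2 ≤ η1 ^ 2 := by
        have := hdec T0 le_rfl
        gcongr
      have n1 : 0 ≤ ‖u t‖ ^ 2 / 2 := by positivity
      have n2 : 0 ≤ ‖U t‖ ^ 2 / 2 := by positivity
      have m1 : ν * (∫ r in T0..t, ‖z r‖ ^ 2) ≤ 2 * η1 ^ 2 := by linarith
      have m2 : ν * (∫ r in T0..t, ‖Y r‖ ^ 2) ≤ η1 ^ 2 / 2 := by linarith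
      have m3 : ν * (∫ r in T0..t, ‖z r - Y r‖ ^ 2) ≤ ν * (η ^ 2 / 2) := by
        calc ν * (∫ r in T0..t, ‖z r - Y r‖ ^ 2)
            ≤ ν * (2 * (∫ r in T0..t, ‖z r‖ ^ 2) + 2 * ∫ r in T0..t, ‖Y r‖ ^ 2) := by gcongr
          _ = 2 * (ν * (∫ r in T0..t, ‖z r‖ ^ 2)) + 2 * (ν * ∫ r in T0..t, ‖Y r‖ ^ 2) := by ring
          _ ≤ 5 * η1 ^ 2 := by linarith
          _ ≤ ν * (η ^ 2 / 2) := by linarith
      have m4 := le_of_mul_le_mul_left m3 hν
      linarith

end Run7.h744.DD
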