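import Pool.Agent.Run7.h744.DD.FinP
import Pool.Agent.Run7.h744.DD.CONT
import Pool.Agent.Run7.h160.DD.J
import Pool.Agent.Run7.h160.DD.CELL
import Pool.Agent.Run7.h160.DD.OSC
import Pool.Agent.Run7.h617.DD.DIF
import Pool.Agent.Run7.h617.DD.GLU
import Pool.Agent.Run7.h617.DD.REL
import Pool.Agent.Run7.h888.DD.AP
import Pool.Agent.Run7.h956.DD.WIN
import Pool.Agent.Run7.h824.DD.ONE
import Pool.Agent.Run7.h824.DD.APX
import Pool.Agent.Run7.h824.DD.FIN
import Pool.Agent.Run7.h811.DD.CLS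
import Pool.Agent.Run7.h811.DD.OP
import Pool.Agent.Run7.h811.DD.LIFT
import Pool.Agent.Run7.h56.DD.WI
import Pool.Agent.Run7.h56.DD.STEP
import Pool.Agent.Run7.h586.DD.Mom
import Pool.Agent.Run7.h586.DD.Cur
import Pool.Agent.Run7.h234.DD.DUAL
import Pool.Agent.Run7.h141.DD.GEO
import Pool.Agent.Run7.h795.DD.PKF
import Pool.Agent.Run7.h141.DD.RES
import Pool.Agent.Run7.h480.DD.PS

/-!
Project DD: all the pieces together.
-/

set_option autoImplicit false
set_option maxHeartbeats 4000000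

namespace Run7.h744.DD

theorem t_all : P_FIN := by
  have hPS : S_PS := Pool.Agent.Run7.h480.DD.t_PS
  have hcont : S_CONT := t_CONT Run7.h956.DD.t_WIN Run7.h617.DD.t_GLU Run7.h617.DD.t_REL
  have hone : S_ONE := Run7.h824.DD.t_ONE Run7.h160.DD.t_J Run7.h617.DD.t_DIF
    Run7.h888.DD.t_AP hcont
  have hlift : S_LIFT := Pool.Agent.Run7.h811.DD.t_LIFT Run7.h56.DD.t_WI
  have hres : S_RES := Run7.h141.DD.t_RES Run7.h795.DD.t_PK hPS
  have hstep : S_STEP := Run7.h56.DD.t_STEP hone hlift hres Run7.h160.DD.t_OSC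
    Run7.h141.DD.t_GEO hPS
  have hdual : S_DUAL := Run7.h234.DD.t_DUAL Run7.h586.DD.t_MOM Run7.h586.DD.t_CUR
  exact pub_of_fin (Run7.h824.DD.t_FIN Run7.h160.DD.t_CELL hdual hstep
    (Run7.h824.DD.t_APX hcont Run7.h56.DD.t_WI))

end Run7.h744.DD
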