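import Pool.Agent.W795.TQ.DPub

/-!
Project DD (density of global strong solutions of the Navier-Stokes equations with Dirichlet
conditions): definitions.
-/

set_option autoImplicit false

open MeasureTheory Set
open scoped InnerProductSpace ContDiff

namespace Run7.h744.DD

open H772R2.NS (E3 M3 L2V L2M)

/-! ### Calculus -/

/-- The partial derivative `∂_i f`. -/
noncomputable def pd (i : Fin 3) (f : E3 → ℝ) (x : E3) : ℝ :=
  fderiv ℝ f x (EuclideanSpace.single i 1)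

/-- The Laplacian of a scalar function. -/
noncomputable def lapS (f : E3 → ℝ) (x : E3) : ℝ := ∑ j, pd j (pd j f) x

/-- A smooth time dependent field with values in `F`, supported in the set `K`. -/
structure SmF {F : Type} [NormedAddCommGroup F] [NormedSpace ℝ F] (K : Set E3)
    (g : ℝ → E3 → F) : Prop where
  smooth : ContDiff ℝ ∞ (fun p : ℝ × E3 => g p.1 p.2)
  supp : ∀ t x, x ∉ K → g t x = 0

/-- The residual `ν Δg - (g·∇)g - ∂_t g + ∇P`. -/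
noncomputable def resid (ν : ℝ) (g : ℝ → E3 → E3) (P : ℝ → E3 → ℝ) (t : ℝ) (x : E3) : E3 :=
  WithLp.toLp 2 fun i => ν * lapS (fun y => g t y i) x
    - ∑ j, g t x j * pd j (fun y => g t y i) x - deriv (fun s => g s x i) t + pd i (P t) x

/-- The weight `e^{-ν λ² t / 2}`. -/
noncomputable def wt (ν lam t : ℝ) : ℝ := Real.exp (-(ν * lam ^ 2 * t / 2))

/-! ### The packets -/

/-- The corrector amplitude `B`. -/
noncomputable def bt (ν lam : ℝ) (U0 V : E3 → E3) (a : E3 → ℝ) (k : Fin 3) (t : ℝ) (x : E3) : ℝ :=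
  lam ^ 2 * t * (2 * ν * pd k a x - a x * U0 x k)
    - a x * V x k * (1 - Real.exp (-(2 * ν * lam ^ 2 * t))) / (2 * ν)

/-- The stream function `ψ = e^{-νλ²t} (a sin(λ x_k) + λ⁻¹ B cos(λ x_k))`. -/
noncomputable def psi (ν lam : ℝ) (U0 V : E3 → E3) (a : E3 → ℝ) (k : Fin 3) (t : ℝ) (x : E3) : ℝ :=
  Real.exp (-(ν * lam ^ 2 * t)) * (a x * Real.sin (lam * x k)
    + lam⁻¹ * bt ν lam U0 V a k t x * Real.cos (lam * x k))

/-- The packet `curl (ψ e_{l+2}) = ∂_{l+1} ψ e_l - ∂_l ψ e_{l+1}`, oscillating in `x_{l+1}`. -/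
noncomputable def pkt (ν lam : ℝ) (U0 V : E3 → E3) (a : E3 → ℝ) (l : Fin 3) (t : ℝ) (x : E3) : E3 :=
  WithLp.toLp 2 fun i => if i = l then pd (l + 1) (psi ν lam U0 V a (l + 1) t) x
    else if i = l + 1 then -pd l (psi ν lam U0 V a (l + 1) t) x else 0

/-- The mean flow `U0 + e^{-2νλ²t} V`. -/
noncomputable def mnf (ν lam : ℝ) (U0 V : E3 → E3) (t : ℝ) (x : E3) : E3 :=
  U0 x + Real.exp (-(2 * ν * lam ^ 2 * t)) • V x

/-- The approximate solution. -/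
noncomputable def cur (ν lam : ℝ) (U0 V : E3 → E3) (a : Fin 3 → E3 → ℝ) (t : ℝ) (x : E3) : E3 :=
  mnf ν lam U0 V t x + ∑ l, pkt ν lam U0 V (a l) l t x

/-- The pressure `λ² e^{-2νλ²t} ϖ`. -/
noncomputable def prs (ν lam : ℝ) (w : E3 → ℝ) (t : ℝ) (x : E3) : ℝ :=
  lam ^ 2 * Real.exp (-(2 * ν * lam ^ 2 * t)) * w x

/-- The residual of one packet:
`λ² e^{-2νλ²t} a ∂_l a e_l + ν Δp - (p·∇)p - (m·∇)p - (p·∇)m - ∂_t p`, `p` the packet and `m` the
mean flow. -/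
noncomputable def pke (ν lam : ℝ) (U0 V : E3 → E3) (a : E3 → ℝ) (l : Fin 3) (t : ℝ) (x : E3) : E3 :=
  WithLp.toLp 2 fun i =>
    (if i = l then lam ^ 2 * Real.exp (-(2 * ν * lam ^ 2 * t)) * (a x * pd l a x) else 0)
    + ν * lapS (fun y => pkt ν lam U0 V a l t y i) x
    - ∑ j, pkt ν lam U0 V a l t x j * pd j (fun y => pkt ν lam U0 V a l t y i) x
    - ∑ j, mnf ν lam U0 V t x j * pd j (fun y => pkt ν lam U0 V a l t y i) x
    - ∑ j, pkt ν lam U0 V a l t x j * pd j (fun y => mnf ν lam U0 V t y i) x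
    - deriv (fun s => pkt ν lam U0 V a l s x i) t

/-- A smooth function (scalar or field) with compact support. -/
structure Sm {F : Type} [NormedAddCommGroup F] [NormedSpace ℝ F] (f : E3 → F) : Prop where
  smooth : ContDiff ℝ ∞ f
  compact : HasCompactSupport f

/-! ### The cells -/

/-- Cell functions: `α_k² = A + Δ b_k`, `k = 0, 1, 2`, supported in the unit ball, the supports of
the `α_k` pairwise disjoint, the integrals of the `b_k` not all equal. -/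
structure Cell (α b : Fin 3 → E3 → ℝ) (A : E3 → ℝ) : Prop where
  sα : ∀ k, ContDiff ℝ ∞ (α k)
  sb : ∀ k, ContDiff ℝ ∞ (b k)
  sA : ContDiff ℝ ∞ A
  tα : ∀ k, tsupport (α k) ⊆ Metric.closedBall 0 1
  tb : ∀ k, tsupport (b k) ⊆ Metric.closedBall 0 1
  tA : tsupport A ⊆ Metric.closedBall 0 1
  disj : ∀ j k, j ≠ k → Disjoint (tsupport (α j)) (tsupport (α k))
  eqn : ∀ k x, α k x ^ 2 = A x + lapS (b k) x
  mom : ∃ j k, (∫ x, b j x) ≠ ∫ x, b k x

/-- The rescaled function `f((x - x0)/ρ)`. -/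
noncomputable def scl (x0 : E3) (ρ : ℝ) (f : E3 → ℝ) (x : E3) : ℝ := f (ρ⁻¹ • (x - x0))

/-- The field of a cell: `V_i = ∂_i Δ b_{σ i} - ∂_i ∑_l ∂_l² b_{σ l}`, the `b` rescaled. -/
noncomputable def cellV (b : Fin 3 → E3 → ℝ) (x0 : E3) (ρ : ℝ) (σ : Equiv.Perm (Fin 3))
    (x : E3) : E3 :=
  WithLp.toLp 2 fun i => pd i (lapS (scl x0 ρ (b (σ i)))) x
    - pd i (fun y => ∑ l, pd l (pd l (scl x0 ρ (b (σ l)))) y) x

/-! ### The abstract part -/

open Pool.Agent.W795.TQ (Str Univ FH)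
open H772R2.NSR (Frame)

section abs

variable {H K : Type} [NormedAddCommGroup H] [InnerProductSpace ℝ H]
  [NormedAddCommGroup K] [InnerProductSpace ℝ K]

/-- `J` represents the functional `p ↦ ⟪x, p.1⟫` by `p ↦ ⟪J x, p.2⟫`. -/
structure IsJ (W : Submodule ℝ (H × K)) (C : ℝ) (J : H →L[ℝ] K) : Prop where
  rep : ∀ x, ∀ p ∈ W, ⟪J x, p.2⟫_ℝ = ⟪x, p.1⟫_ℝ
  bd : ∀ x, ‖J x‖ ≤ C * ‖x‖

/-- The background operators `L` and the error `E` with their time derivatives, and the bounds on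
`[0, 1/λ]`. -/
structure Bg (ν lam Q : ℝ) (L L1 : ℝ → H →L[ℝ] K) (E E1 : ℝ → H) : Prop where
  dL : ∀ t, HasDerivAt L (L1 t) t
  cL : Continuous L1
  dE : ∀ t, HasDerivAt E (E1 t) t
  cE : Continuous E1
  bL : ∀ t ∈ Icc 0 (1 / lam), ‖L t‖ ≤ Q * (lam * wt ν lam t + 1)
  bL1 : ∀ t ∈ Icc 0 (1 / lam), ‖L1 t‖ ≤ Q * (lam ^ 3 * wt ν lam t + 1)
  bE : ∀ t ∈ Icc 0 (1 / lam), ‖E t‖ ≤ Q * (lam * wt ν lam t + 1)
  bE1 : ∀ t ∈ Icc 0 (1 / lam), ‖E1 t‖ ≤ Q * (lam ^ 3 * wt ν lam t + 1)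

/-- An approximate solution `g` with gradient `y` and residual `E`; `L t` is the derivative of the
tensor square at `g t`. -/
structure Crv (W : Submodule ℝ (H × K)) (m : H → K) (ν : ℝ) (L : ℝ → H →L[ℝ] K)
    (E g g1 : ℝ → H) (y y1 : ℝ → K) : Prop where
  mem : ∀ t, (g t, y t) ∈ W
  mem1 : ∀ t, (g1 t, y1 t) ∈ W
  dg : ∀ t, HasDerivAt g (g1 t) t
  dy : ∀ t, HasDerivAt y (y1 t) t
  cg : Continuous g1
  cy : Continuous y1
  bil : ∀ t, ∀ p ∈ W, m (g t + p.1) = m (g t) + L t p.1 + m p.1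
  res : ∀ t, ∀ p ∈ W, ⟪g1 t, p.1⟫_ℝ = ⟪-(ν • y t) + m (g t), p.2⟫_ℝ - ⟪E t, p.1⟫_ℝ

/-- Global strong solutions without force. -/
def Glob (W : Submodule ℝ (H × K)) (m : H → K) (ν : ℝ) (u u1 : ℝ → H) (z z1 : ℝ → K) : Prop :=
  ∀ T : ℝ, 0 < T → Str W m ν T (fun _ => 0) u u1 z z1

end abs

end Run7.h744.DD
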