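import Pool.Agent.Run7.h744.DD.Pub
import Pool.Agent.W52.TQ.Univ

/-!
Project DD: from the internal form to the public statement.
-/

set_option autoImplicit false
set_option maxHeartbeats 4000000

open MeasureTheory Set Filter Topology
open scoped InnerProductSpace ContDiff

namespace Run7.h744.DD

open H772R2.NS H772R2.NS.Pub H772R2.NSR H772R2.NSG Pool.Agent.W795.TQ

/-- The public statement. -/
def P_FIN : Prop :=
  ∀ (Ω : Set R3), IsOpen Ω → Bornology.IsBounded Ω → ∀ ν : ℝ, 0 < ν →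
    ∀ (U U' : ℝ → L2 Ω R3) (G G' : ℝ → L2 Ω Mat),
    (∀ T, 0 < T → IsStrong Ω ν T (fun _ => 0) U U' G G') →
    ∀ u0 ∈ Pub.L2sigma Ω, ∀ (n : ℕ) (φ : Fin n → R3 → R3),
    (∀ i, ContDiff ℝ ∞ (φ i) ∧ HasCompactSupport (φ i) ∧ tsupport (φ i) ⊆ Ω) →
    ∀ ε : ℝ, 0 < ε →
    ∃ (v0 : R3 → R3) (u u' : ℝ → L2 Ω R3) (D D' : ℝ → L2 Ω Mat),
      Pub.IsTest Ω v0 ∧ IsClass (u 0) v0 ∧
      (∀ T, 0 < T → IsStrong Ω ν T (fun _ => 0) u u' D D') ∧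
      (∀ i, |(∫ x in Ω, ⟪v0 x, φ i x⟫_ℝ) - ∫ x in Ω, ⟪u0.fn x, φ i x⟫_ℝ| ≤ ε) ∧
      ∀ t, ε ≤ t → ‖u t - U t‖ ≤ ε ∧ ∫ s in ε..t, ‖D s - G s‖ ^ 2 ≤ ε ^ 2

theorem pub_of_fin (h : S_FIN) : P_FIN := by
  intro Ω hΩ hb ν hν U U' G G' hU u0 hu0 n φ hφ ε hε
  obtain ⟨C, Fr⟩ := exists_frame (Ω := (Ω : Set E3)) hΩ hb
  have hG : Glob (graphW (Ω : Set E3)) (tensL (Ω := (Ω : Set E3))) ν U U' G G' := fun T hT =>
    str_of_strong (Ω := (Ω : Set E3)) hΩ hT Fr continuousOn_const (hU T hT)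
  have hu0' : u0 ∈ H772R2.NS.L2sigma (Ω : Set E3) := by
    rw [← L2sigma_eq]
    exact hu0
  obtain ⟨g, V, Y, ⟨k1, k2, V1, Y1, k3⟩, k4, k5⟩ := h Ω hΩ hb ν hν U U' G G' hG u0 hu0' n φ
    (fun i => ⟨(hφ i).1, (hφ i).2.1⟩) (fun i => (hφ i).2.2) ε hε
  refine ⟨g, V, V1, Y, Y1, (isTest_iff g).mpr k1, k2, ?_, ?_, ?_⟩
  · intro T hT
    exact strong_of_str (Ω := (Ω : Set E3)) hΩ hT (k3 T hT) fun t _ => rfl
  · intro i
    exact le_trans (le_of_eq (congrArg abs (congrArg₂ (· - ·)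
      (integral_congr_ae (Eventually.of_forall fun x => inner_E3 _ _))
      (integral_congr_ae (Eventually.of_forall fun x => inner_E3 _ _))))) (k4 i)
  · exact k5

end Run7.h744.DD
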