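import Pool.Agent.Run7.h744.DD.Defs

/-!
Project DD: the interface. Every piece is a closed proposition `S_XXX`; its proof is in the
comment. A piece is delivered as `theorem t_XXX : S_XXX` (from nothing), or
`theorem t_XXX : S_A → S_B → S_XXX` when the comment says (from ...).
Libraries: `H772R2.NSR`, `H772R2.NSG` (abstract frame: `Frame W m C`, fields `closedW, uniq, poinc
(‖p.1‖ ≤ C ‖p.2‖), ortho (⟪m p.1, p.2⟫ = 0), anti, quart, lips`), `Pool.Agent.W795.TQ.DStm` (`Str`,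
`Univ`, `FH`, `S_est1`, `S_est2`, `S_loc`, `S_uni`, `S_univ`, all PROVED: `W52.TQ.proof_loc`,
`W52.TQ.proof_univ`, `W503.TQ.proof_uni`, `W503.TQ.proof_est1`, `W790.TQ.proof_est2`,
`W347.TQ.proof_ode`), `W503.TQ.toSt`, `W503.TQ.prod_rule`, `H772R2.NSG.St.deriv_weak` (the equation
for almost every time), `W790.TQ` (difference quotients: `pt_ineq`, `diff_ineq`, `lim_ineq`,
`sq_prim`, `prim_shift'`), `H772R2.NSG.rel_energy`, `H772R2.NSR.gron`.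
-/

set_option autoImplicit false

open MeasureTheory Set Filter Topology
open scoped InnerProductSpace ContDiff

namespace Run7.h744.DD

open H772R2.NS (E3 M3 L2V L2M graphW tensL IsTest jac L2sigma)
open Pool.Agent.W795.TQ (Str Univ FH)
open H772R2.NSR (Frame)

/-! ## Abstract part -/

/-- **J**. The Riesz representation. Proof. Let `R = {p.2 : p ∈ W}`. By `Fr.poinc` and
`Fr.closedW` the map `W → K`, `p ↦ p.2` is injective with closed range `R` (a Cauchy sequence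
`p_n.2` gives a Cauchy sequence `p_n`), and `S : R → H`, `p.2 ↦ p.1`, is linear with `‖S‖ ≤ C`. Put
`J = (S ∘ P_R)^*`, `P_R` the orthogonal projection on `R` (`R` is complete). -/
def S_J : Prop := ∀ (H K : Type) [NormedAddCommGroup H] [InnerProductSpace ℝ H]
    [CompleteSpace H] [NormedAddCommGroup K] [InnerProductSpace ℝ K] [CompleteSpace K]
    (W : Submodule ℝ (H × K)) (m : H → K) (C : ℝ), Frame W m C →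
    ∃ J : H →L[ℝ] K, IsJ W C J

/-- **DIF**. The difference `v = u - g` of a strong solution and of the curve is a strong solution
with the force `F_v = L v + J E`. Proof. `mem, mem1, u1m, z1m, pu, pz, bd`: differences (`g1, y1`
are continuous, so bounded on `[0, τ]`). For almost every `s` (`toSt`, `St.deriv_weak`):
`⟪u1, p.1⟫ = ⟪-ν z + m u, p.2⟫` for all `p ∈ W`; with `bil` for `p = (v, z - y)`,
`m u = m g + L v + m v`; subtract `res`: `⟪v1, p.1⟫ = ⟪-ν (z - y) + m v + L v, p.2⟫ + ⟪E, p.1⟫` and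
`⟪E, p.1⟫ = ⟪J E, p.2⟫`. Integrate over `[0, t]` (`v t - v 0 = ∫ v1`, `integral_inner`): `weak`.
`energy`: take `p = (v, z - y)`, `⟪m v, z - y⟫ = 0` (`Fr.ortho`) and
`‖v t‖² - ‖v 0‖² = 2 ∫ ⟪v1, v⟫` (`W790.TQ.sq_prim`). -/
def S_DIF : Prop := ∀ (H K : Type) [NormedAddCommGroup H] [InnerProductSpace ℝ H]
    [CompleteSpace H] [NormedAddCommGroup K] [InnerProductSpace ℝ K] [CompleteSpace K]
    (W : Submodule ℝ (H × K)) (m : H → K) (C ν lam Q : ℝ) (J : H →L[ℝ] K)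
    (L L1 : ℝ → H →L[ℝ] K) (E E1 g g1 : ℝ → H) (y y1 : ℝ → K),
    Frame W m C → IsJ W C J → 0 < ν → Bg ν lam Q L L1 E E1 → Crv W m ν L E g g1 y y1 →
    ∀ (τ : ℝ) (u u1 : ℝ → H) (z z1 : ℝ → K), 0 < τ → Str W m ν τ (fun _ => 0) u u1 z z1 →
    u 0 = g 0 →
    Str W m ν τ (fun t => L t (u t - g t) + J (E t)) (fun t => u t - g t) (fun t => u1 t - g1 t)
      (fun t => z t - y t) (fun t => z1 t - y1 t)

/-- **AP**, the a priori estimate. `z 0 = 0` by `Fr.uniq`. All constants `D1, D2, ...` depend only on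
`C, c, ν, Q`. Write `F t = L t (v t) + J (E t)`.
(1) Integrals on `[0, τ]`, `τ ≤ 1/λ`, `λ ≥ 1`, `w = wt ν λ`: `∫ w ≤ 2/(ν λ²)`, `∫ w² ≤ 1/(ν λ²)`,
so `∫ ‖L‖² ≤ D1`, `∫ ‖E‖ ≤ D1/λ`, `∫ ‖L1‖² ≤ D1 λ⁴`, `∫ ‖E1‖² ≤ D1 λ⁴`, `‖L‖, ‖E‖ ≤ 2Qλ`.
(2) Energy (`Str.energy`): `‖v t‖²/2 + ν ∫ ‖z‖² = ∫ ⟪F, z⟫ = ∫ ⟪L v, z⟫ + ∫ ⟪E, v⟫ ≤
∫ (‖L‖²‖v‖²/(2ν) + ν‖z‖²/2) + ∫ ‖E‖‖v‖`; so `‖v t‖² + ν ∫ ‖z‖² ≤ ∫ (‖L‖²/ν) ‖v‖² + 2 S ∫ ‖E‖`, `S` the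
maximum of `‖v‖` on `[0, t]`; Gronwall: `S ≤ D2/λ` and `∫ ‖z‖² ≤ D2/λ²`. The same on `[0, h]`, `h`
small: `S(h)² ≤ (h 4Q²λ²/ν) S(h)² + 4Qλ h S(h)`, so `‖v h‖ ≤ 8Qλ h` for all small `h`.
(3) `F ∈ H¹(0, τ; K)`, `F1 = L1 v + L v1 + J E1` (product rule), so
`‖F1‖² ≤ 3 (‖L1‖² D2²/λ² + ‖L‖²‖v1‖² + C²‖E1‖²)`. `W790.TQ.diff_ineq` with `r = 0`:
`‖v(t+h) - v t‖² - ‖v h‖² + ν ∫_0^t ‖z(s+h) - z s‖² ≤ (2/ν) h² ∫_0^{t+h} ‖F1‖² + k ∫_0^t ‖v(s+h) -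
v s‖² ‖z s‖⁴`, `k = 14c⁴/ν³`; divide by `h²`, `h → 0`, for almost every `t` (as in the proof of
`W790.TQ.lim_ineq`; drop the term with `z(s+h)`):
`‖v1 t‖² ≤ 64 Q² λ² + (2/ν) ∫_0^t ‖F1‖² + k ∫_0^t ‖v1‖²‖z‖⁴`.
Hence `Y(t) = ‖v1 t‖²` satisfies `Y ≤ D3 λ⁴ + ∫_0^t (6‖L‖²/ν + k‖z‖⁴) Y` almost everywhere; the
right side is a continuous function `R(t)` with `R(t) ≤ D3 λ⁴ + ∫_0^t (6‖L‖²/ν + k‖z‖⁴) R`; Gronwall: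
if `∫_0^t ‖z‖⁴ ≤ 1` then `‖v1‖² ≤ D4 λ⁴` almost everywhere on `[0, t]`.
(4) Almost everywhere (`St.deriv_weak` with `p = (v, z)`, `Fr.ortho`):
`ν‖z‖² = ⟪F, z⟫ - ⟪v1, v⟫ = ⟪L v, z⟫ + ⟪E, v⟫ - ⟪v1, v⟫ ≤ ν‖z‖²/2 + ‖L‖²‖v‖²/(2ν) + (‖E‖ + ‖v1‖)‖v‖`,
so `‖z‖² ≤ D5 (1 + 1 + λ² · (1/λ)) ≤ D λ` almost everywhere on `[0, t]`, everywhere by continuity of
`z`, and `∫_0^t ‖z‖⁴ ≤ D λ · D2/λ² ≤ 1/2` for `λ ≥ λ0`. By continuity in `t` the hypothesis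
`∫_0^t ‖z‖⁴ ≤ 1` holds for `t = τ`. -/
def S_AP : Prop := ∀ (C c ν Q : ℝ), 0 < C → 0 < c → 0 < ν → 0 < Q →
    ∃ D lam0 : ℝ, 0 < D ∧ 1 ≤ lam0 ∧
    ∀ (H K : Type) [NormedAddCommGroup H] [InnerProductSpace ℝ H]
    [CompleteSpace H] [NormedAddCommGroup K] [InnerProductSpace ℝ K] [CompleteSpace K]
    (W : Submodule ℝ (H × K)) (m : H → K) (lam : ℝ) (J : H →L[ℝ] K)
    (L L1 : ℝ → H →L[ℝ] K) (E E1 : ℝ → H),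
    Frame W m C → Univ W m c → IsJ W C J → lam0 ≤ lam → Bg ν lam Q L L1 E E1 →
    ∀ (τ : ℝ) (v v1 : ℝ → H) (z z1 : ℝ → K), 0 < τ → τ ≤ 1 / lam →
    Str W m ν τ (fun t => L t (v t) + J (E t)) v v1 z z1 → v 0 = 0 →
    ∀ t ∈ Icc 0 τ, ‖v t‖ ≤ D / lam ∧ ‖z t‖ ^ 2 ≤ D * lam

/-- **WIN**. Regularity on the time scale `‖z‖⁻⁴`. Proof. Apply `S_ode` (`W347.TQ.proof_ode`) on
`[t0, t]` with `F = 0`, `Φ = 0`, `G = 0`, `a = ‖u1‖`, `w = ‖z1‖`, `g = 0`, `Y = ‖z‖`; its two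
inequalities are `S_est1` and `S_est2` for the restriction of the solution to `[0, t]` (a restriction
of `Str` to a shorter interval is `Str`). -/
def S_WIN : Prop := ∀ c : ℝ, 0 < c → ∃ ε C7 : ℝ, 0 < ε ∧ 0 < C7 ∧
    ∀ (H K : Type) [NormedAddCommGroup H] [InnerProductSpace ℝ H]
    [CompleteSpace H] [NormedAddCommGroup K] [InnerProductSpace ℝ K] [CompleteSpace K]
    (W : Submodule ℝ (H × K)) (m : H → K) (C ν τ : ℝ) (u u1 : ℝ → H) (z z1 : ℝ → K),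
    Frame W m C → Univ W m c → 0 < ν → 0 < τ → Str W m ν τ (fun _ => 0) u u1 z z1 →
    ∀ t0 t : ℝ, 0 ≤ t0 → t0 < t → t ≤ τ → ‖z t0‖ ^ 2 * Real.sqrt (t - t0) ≤ ε * ν ^ (3 / 2 : ℝ) →
    ‖z t‖ ^ 2 ≤ C7 * ‖z t0‖ ^ 2

/-- **GLU**. Strong solutions on all intervals `[0, T]` with the same initial value give a global
one. Proof. Uniqueness: two strong solutions on `[0, T]` with force `0` and the same value at `0`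
agree (`W503.TQ.proof_uni`, a strong solution being a Leray-Hopf solution `LH`; or Gronwall for the
difference: `⟪m u - m u', z - z'⟫ = -⟪m (u - u'), z'⟫` and `quart`), so the `z` agree on `[0, T]`
(`Fr.uniq`), and the `u1, z1` agree almost everywhere (they are the derivatives). Choose solutions
`u_n` on `[0, n + 1]` and put `u t = u_{⌊t⌋₊} t`, the same for `u1, z, z1`. -/
def S_GLU : Prop := ∀ (H K : Type) [NormedAddCommGroup H] [InnerProductSpace ℝ H]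
    [CompleteSpace H] [NormedAddCommGroup K] [InnerProductSpace ℝ K] [CompleteSpace K]
    (W : Submodule ℝ (H × K)) (m : H → K) (C ν : ℝ) (x0 : H), Frame W m C → 0 < ν →
    (∀ T : ℝ, 0 < T → ∃ (u u1 : ℝ → H) (z z1 : ℝ → K),
      Str W m ν T (fun _ => 0) u u1 z z1 ∧ u 0 = x0) →
    ∃ (u u1 : ℝ → H) (z z1 : ℝ → K), u 0 = x0 ∧ Glob W m ν u u1 z z1

/-- **REL**. Stability in `L²` near a strong solution, from any time `s` on. Proof. For almost every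
time `d/dt ‖u - U‖²/2 + ν ‖z - Y‖² = ⟪m u - m U, z - Y⟫ = -⟪m (u - U), Y⟫ ≤ c ‖u-U‖^{1/2}
‖z-Y‖^{3/2} Z ≤ (ν/2) ‖z-Y‖² + (27/32)(c⁴ Z⁴/ν³) ‖u-U‖²` (`St.deriv_weak` for both, `Fr.anti`,
`Univ.quart`), integrate from `s` (`W790.TQ.sq_prim`) and use Gronwall. -/
def S_REL : Prop := ∀ (H K : Type) [NormedAddCommGroup H] [InnerProductSpace ℝ H]
    [CompleteSpace H] [NormedAddCommGroup K] [InnerProductSpace ℝ K] [CompleteSpace K]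
    (W : Submodule ℝ (H × K)) (m : H → K) (C c ν τ Z : ℝ) (u u1 U U1 : ℝ → H)
    (z z1 Y Y1 : ℝ → K),
    Frame W m C → Univ W m c → 0 < ν → 0 < τ → Str W m ν τ (fun _ => 0) u u1 z z1 →
    Str W m ν τ (fun _ => 0) U U1 Y Y1 → (∀ t ∈ Icc 0 τ, ‖Y t‖ ≤ Z) →
    ∀ s t : ℝ, 0 ≤ s → s ≤ t → t ≤ τ →
    ‖u t - U t‖ ^ 2 + ν * (∫ r in s..t, ‖z r - Y r‖ ^ 2)
      ≤ ‖u s - U s‖ ^ 2 * Real.exp (2 * (c ^ 4 * Z ^ 4 / ν ^ 3) * (t - s))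
        * (1 + 2 * (c ^ 4 * Z ^ 4 / ν ^ 3) * (t - s))

/-- **CONT** (from `S_WIN`, `S_GLU`, `S_REL`, and the library `S_loc` = `W52.TQ.proof_loc`).
Continuation near a global strong solution `U`. `t1` may be `0`.
Proof. Let `ε, C7` be as in `S_WIN`. Energy of `U`: `‖U t‖ ≤ ‖U 0‖ e^{-νt/C²}` (`Str.energy` and
`Fr.poinc`; or: `∫ ‖Y‖²` is finite, so `‖U t‖` is small for some arbitrarily large `t`, and it is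
nonincreasing). Choose `η1 > 0` with `3η1 ≤ η`, `4 η1² ≤ ν η²/8` and `2 η1²/ν ≤ ε ν^{3/2}`, and `T0 ≥ 1`
with `‖U t‖ ≤ η1` for `t ≥ T0`. `Z ≥ 1` a bound of `‖Y‖` on `[0, T0 + 2]`, `G` the factor of `S_REL`
there, `s2 = min(1, ε² ν³/(16 Z⁴))`. `δ ≤ 1` small (below). Let `u` be a strong solution on `[0, τ]`,
`u 0 = x0`. Claim: `‖z t‖ < N` on `[0, τ]`, where `N` depends on everything except `τ`.
* `t ≤ t1`: `‖z t‖ ≤ N0`.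
* `t1 ≤ t ≤ T0 + 2`: `S_REL` on `[t1, t]`: `‖u - U‖² + ν ∫_{t1} ‖z - Y‖² ≤ G δ²/N1²` (`≤ η²/2`, and
  `≤ η1²`). Let `s = t - t1`, `s1 = ε²ν³/N1⁴`. If `s ≤ s1`: `S_WIN` from `t1`: `‖z t‖² ≤ C7 N1²`. If
  `s > s1`, put `s' = min(s, s2)`; some `t0 ∈ [t - s', t)` (even `t0 ≤ t - s'/2`) has
  `‖z t0 - Y t0‖² ≤ 2Gδ²/(νN1² s')`, so `‖z t0‖² ≤ 2Z² + 4Gδ²/(ν N1² s')`, and
  `‖z t0‖² √(t - t0) ≤ 2Z²√s2 + 4Gδ²/(ν N1² √s') ≤ ε ν^{3/2}` for small `δ` (`√s' ≥ min(√s1, √s2)`,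
  `N1² √s1 = ε ν^{3/2}`, `N1 ≥ 1`); `S_WIN`: `‖z t‖² ≤ C7 (2Z² + 4Gδ²/(νN1² s'))`, bounded.
* `t ≥ T0 + 1`: `‖u T0‖ ≤ 2η1`, so `ν∫_{T0}^t ‖z‖² ≤ 2η1²`; some `t0 ∈ [t - 1, t)` has
  `‖z t0‖² ≤ 2η1²/ν ≤ ε ν^{3/2}`; `S_WIN`: `‖z t‖² ≤ 2 C7 η1²/ν`.
(If `T0 < t1` replace `T0` by `t1 + 1`.) Now for every `T` the library `S_loc` with `N` gives a strong
solution on `[0, T]` (the alternative `N ≤ ‖z τ‖` is excluded by the claim), `S_GLU` a global one.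
Closeness: on `[t1, T0 + 2]` above; for `t ≥ T0`: `‖u‖ + ‖U‖ ≤ 2η1 + η1`, and
`∫_{T0} ‖z - Y‖² ≤ 2 ∫ ‖z‖² + 2 ∫ ‖Y‖²`. -/
def S_CONT : Prop := ∀ (H K : Type) [NormedAddCommGroup H] [InnerProductSpace ℝ H]
    [CompleteSpace H] [NormedAddCommGroup K] [InnerProductSpace ℝ K] [CompleteSpace K]
    (W : Submodule ℝ (H × K)) (m : H → K) (C c ν : ℝ) (U U1 : ℝ → H) (Y Y1 : ℝ → K),
    Frame W m C → Univ W m c →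
    (∀ R : ℝ, TotallyBounded {v : H | ∃ z, (v, z) ∈ W ∧ ‖z‖ ≤ R}) → 0 < ν →
    Glob W m ν U U1 Y Y1 → ∀ η : ℝ, 0 < η → ∃ δ : ℝ, 0 < δ ∧
    ∀ (t1 N0 N1 : ℝ) (x0 g0 : H) (z0 : K), 0 ≤ t1 → t1 ≤ δ → 1 ≤ N1 → (x0, z0) ∈ W →
    (∀ p ∈ W, ⟪-(ν • z0) + m x0, p.2⟫_ℝ = ⟪g0, p.1⟫_ℝ) → ‖z0‖ < N0 →
    (∀ (τ : ℝ) (u u1 : ℝ → H) (z z1 : ℝ → K), 0 < τ → Str W m ν τ (fun _ => 0) u u1 z z1 →
      u 0 = x0 → (∀ t ∈ Icc 0 τ, t ≤ t1 → ‖z t‖ ≤ N0) ∧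
        (t1 ≤ τ → ‖z t1‖ ≤ N1 ∧ ‖u t1 - U t1‖ * N1 ≤ δ)) →
    ∃ (u u1 : ℝ → H) (z z1 : ℝ → K), u 0 = x0 ∧ Glob W m ν u u1 z z1 ∧
      ∀ t : ℝ, t1 ≤ t → ‖u t - U t‖ ≤ η ∧ (∫ r in t1..t, ‖z r - Y r‖ ^ 2) ≤ η ^ 2

/-- **ONE** (from `S_J`, `S_DIF`, `S_AP`, `S_CONT`): one perturbation step. Proof. `D, λ0` from
`S_AP`, `t1 = 1/λ`, `N1 = Q + √(Dλ) + 1`, `N0 = max_{[0,1/λ]} ‖y‖ + √(Dλ) + 1`; `x0 = g 0`, `z0 = y 0`,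
`g0 = g1 0 + E 0` (`Crv.res` at `0`). Let `u` be strong on `[0, τ]`, `u 0 = g 0`; on
`[0, min τ (1/λ)]` (restriction) `u - g` is as in `S_AP` by `S_DIF`, so `‖z - y‖² ≤ Dλ`,
`‖u - g‖ ≤ D/λ` there. `‖u t1 - U t1‖ ≤ D/λ + Q/λ + ‖U 0 - U t1‖ ≤ (D + Q + M)/λ`, `M` the bound of `U1`
on `[0, 1]` (`Str.bd`), and this times `N1` tends to `0` as `λ → ∞`. `S_CONT` with `min η ..`. -/
def S_ONE : Prop := ∀ (H K : Type) [NormedAddCommGroup H] [InnerProductSpace ℝ H]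
    [CompleteSpace H] [NormedAddCommGroup K] [InnerProductSpace ℝ K] [CompleteSpace K]
    (W : Submodule ℝ (H × K)) (m : H → K) (C c ν : ℝ) (U U1 : ℝ → H) (Y Y1 : ℝ → K),
    Frame W m C → Univ W m c →
    (∀ R : ℝ, TotallyBounded {v : H | ∃ z, (v, z) ∈ W ∧ ‖z‖ ≤ R}) → 0 < ν →
    Glob W m ν U U1 Y Y1 → ∀ Q η : ℝ, 0 < Q → 0 < η → ∃ lam2 : ℝ, 1 ≤ lam2 ∧
    ∀ (lam : ℝ) (L L1 : ℝ → H →L[ℝ] K) (E E1 g g1 : ℝ → H) (y y1 : ℝ → K), lam2 ≤ lam →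
    Bg ν lam Q L L1 E E1 → Crv W m ν L E g g1 y y1 → ‖g (1 / lam) - U 0‖ ≤ Q / lam →
    ‖y (1 / lam)‖ ≤ Q →
    ∃ (u u1 : ℝ → H) (z z1 : ℝ → K), u 0 = g 0 ∧ Glob W m ν u u1 z z1 ∧
      ∀ t : ℝ, η ≤ t → ‖u t - U t‖ ≤ η ∧ (∫ r in η..t, ‖z r - Y r‖ ^ 2) ≤ η ^ 2

/-! ## From smooth fields to `L²` classes -/

/-- **CLS**. Classes of smooth time dependent fields are differentiable in time. Proof. `G t` the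
class of `g t` (`MemLp` because bounded and supported in the compact set `K`), `G1 t` the class of the
time derivative. `g(t+h) - g t - h ∂_t g t = O(h²)` uniformly for `t` in a compact interval and
`x ∈ K`, zero off `K`, and `‖[f]‖ ≤ vol(K)^{1/2} sup |f|`. -/
def S_CLS : Prop := ∀ (F : Type) [NormedAddCommGroup F] [NormedSpace ℝ F]
    [FiniteDimensional ℝ F] [MeasurableSpace F] [BorelSpace F] (Ω K : Set E3), IsOpen Ω →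
    IsCompact K → K ⊆ Ω → ∃ V0 : ℝ, 0 < V0 ∧ ∀ g : ℝ → E3 → F, SmF K g →
    ∃ G G1 : ℝ → Lp F 2 (volume.restrict Ω),
      (∀ t, G t =ᵐ[volume.restrict Ω] g t) ∧
      (∀ t, G1 t =ᵐ[volume.restrict Ω] fun x => deriv (fun s => g s x) t) ∧
      (∀ t, HasDerivAt G (G1 t) t) ∧ Continuous G1 ∧
      (∀ t B, (∀ x, ‖g t x‖ ≤ B) → ‖G t‖ ≤ V0 * B) ∧
      (∀ t B, (∀ x, ‖deriv (fun s => g s x) t‖ ≤ B) → ‖G1 t‖ ≤ V0 * B)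

/-- **OP**. The operators `x ↦ Φ ⊗ x + x ⊗ Φ`. Proof. Pointwise multiplication by the bounded
continuous field `Φ`: `|Φ_i x_j + x_i Φ_j|_Frobenius ≤ 2 |Φ||x|`; (bil): `tens (a + b) = tens a +
(a ⊗ b + b ⊗ a) + tens b` and `tensL_coe` for `p`, `(g, y)` and their sum. -/
def S_OP : Prop := ∀ (Ω K : Set E3), IsOpen Ω → IsCompact K → K ⊆ Ω →
    ∃ B : (E3 → E3) → (L2V Ω →L[ℝ] L2M Ω),
      (∀ Φ, Continuous Φ → (∀ x, x ∉ K → Φ x = 0) → ∀ v : L2V Ω, B Φ v =ᵐ[volume.restrict Ω]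
        fun x => WithLp.toLp 2 fun p : Fin 3 × Fin 3 => Φ x p.1 * v x p.2 + v x p.1 * Φ x p.2) ∧
      (∀ Φ b, Continuous Φ → (∀ x, x ∉ K → Φ x = 0) → (∀ x, ‖Φ x‖ ≤ b) → ‖B Φ‖ ≤ 2 * b) ∧
      (∀ g : ℝ → E3 → E3, SmF K g → (∀ t, HasDerivAt (fun s => B (g s))
        (B fun x => deriv (fun s => g s x) t) t) ∧
        Continuous fun t => B fun x => deriv (fun s => g s x) t) ∧
      ∀ Φ, Continuous Φ → (∀ x, x ∉ K → Φ x = 0) → ∀ (v : L2V Ω) (y : L2M Ω),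
        v =ᵐ[volume.restrict Ω] Φ → (v, y) ∈ graphW Ω → ∀ p ∈ graphW Ω,
        tensL (v + p.1) = tensL v + B Φ p.1 + tensL p.1

/-- **WI**. The weak identity for one smooth divergence free field `g` (a test field), `G` its class,
`Y` the class of its Jacobian: for `f = ν Δg - (g·∇)g + ∇P + h`, all fields smooth and supported
in `Ω`: `⟪[h], p.1⟫ = ⟪ν Y - tensL G, p.2⟫ + ⟪[f], p.1⟫` for all `p ∈ graphW Ω`. Proof. By density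
(`graphW_induction`) for `p = ([φ], [∇φ])`, `φ` a test field: `∫ Δg·φ = -∫ ∇g:∇φ`,
`∫ (g·∇)g·φ = -∫ g·(g·∇)φ`, `∫ ∇P·φ = 0`. -/
def S_WI : Prop := ∀ (Ω : Set E3), IsOpen Ω → ∀ (ν : ℝ) (g h : E3 → E3) (P : E3 → ℝ)
    (G X Hh : L2V Ω) (Y : L2M Ω), IsTest Ω g → Sm h → tsupport h ⊆ Ω → Sm P → tsupport P ⊆ Ω →
    G =ᵐ[volume.restrict Ω] g → Y =ᵐ[volume.restrict Ω] jac g →
    Hh =ᵐ[volume.restrict Ω] h →
    (X =ᵐ[volume.restrict Ω] fun x => WithLp.toLp 2 fun i => ν * lapS (fun y => g y i) x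
      - ∑ j, g x j * pd j (fun y => g y i) x - h x i + pd i P x) →
    (G, Y) ∈ graphW Ω ∧ ∀ p ∈ graphW Ω,
      ⟪Hh, p.1⟫_ℝ = ⟪-(ν • Y) + tensL G, p.2⟫_ℝ - ⟪X, p.1⟫_ℝ

/-- **LIFT** (from `S_CLS`, `S_OP`, `S_WI`): smooth divergence free curves with compact support give
`Crv`, with `L t = B (g t)`, `E t` the class of the residual. -/
def S_LIFT : Prop := ∀ (Ω K : Set E3), IsOpen Ω → IsCompact K → K ⊆ Ω →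
    ∃ V0 : ℝ, 0 < V0 ∧ ∀ (ν : ℝ) (g : ℝ → E3 → E3) (P : ℝ → E3 → ℝ), SmF K g → SmF K P →
    (∀ t x, ∑ i, pd i (fun y => g t y i) x = 0) →
    ∃ (L L1 : ℝ → L2V Ω →L[ℝ] L2M Ω) (E E1 G G1 : ℝ → L2V Ω) (Y Y1 : ℝ → L2M Ω),
      Crv (graphW Ω) (tensL (Ω := Ω)) ν L E G G1 Y Y1 ∧
      (∀ t, HasDerivAt L (L1 t) t) ∧ Continuous L1 ∧ (∀ t, HasDerivAt E (E1 t) t) ∧
      Continuous E1 ∧ (∀ t, G t =ᵐ[volume.restrict Ω] g t) ∧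
      (∀ t, Y t =ᵐ[volume.restrict Ω] jac (g t)) ∧
      (∀ t b, (∀ x, ‖g t x‖ ≤ b) → ‖L t‖ ≤ V0 * b) ∧
      (∀ t b, (∀ x, ‖deriv (fun s => g s x) t‖ ≤ b) → ‖L1 t‖ ≤ V0 * b) ∧
      (∀ t b, (∀ x, ‖resid ν g P t x‖ ≤ b) → ‖E t‖ ≤ V0 * b) ∧
      (∀ t b, (∀ x, ‖deriv (fun s => resid ν g P s x) t‖ ≤ b) → ‖E1 t‖ ≤ V0 * b) ∧
      (∀ t b, (∀ x, ‖jac (g t) x‖ ≤ b) → ‖Y t‖ ≤ V0 * b) ∧
      ∀ t b (f : E3 → E3) (Φ : L2V Ω), Φ =ᵐ[volume.restrict Ω] f → Continuous f →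
        (∀ x, x ∉ K → f x = 0) → (∀ x, ‖g t x - f x‖ ≤ b) → ‖G t - Φ‖ ≤ V0 * b

/-! ## The packets -/

/-- **PK**. The residual of one packet is `O(λ)`. Proof. Write `s = sin(λ x_κ)`, `c = cos(λ x_κ)`,
`ξ = l`, `κ = l+1`, `e = e^{-νλ²t}`, `τ = νλ²t`. A function `A s + B c` has `∂_i (A s + B c) =
(∂_i A - δ_{iκ} λ B) s + (∂_i B + δ_{iκ} λ A) c`. Here `ψ = A s + B c`, `A = e a`,
`B = λ⁻¹ (λ²t e β1 - e (1 - e^{-2τ}) β2/(2ν))`, `β1 = 2ν ∂_κ a - a U0_κ`, `β2 = a V_κ`.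
Orders: call a function `f(λ,t,x)` of order `k` if `|f| ≤ C λ^k w` and `|∂_t f| ≤ C λ^{k+2} w`
(`w = e^{-τ/2}`) for `λ ≥ 1, t ≥ 0, x`; bounded functions of `x` (and `s`, `c`, and
`m = U0 + e^{-2τ} V` with `|∂_t m| ≤ Cλ²`) may multiply; products add the orders. `A` and its
`x`-derivatives have order `0`, `B` and its `x`-derivatives order `-1`. So `ψ_κ = λAc + O(0)`,
`ψ_ξ = A_ξ s + O(-1)`, `ψ_κκ = -λ²As + O(1)`, `ψ_κξ = λA_ξ c + O(0)`, `ψ_ξξ = O(0)`,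
`ψ_κη = O(1)`, `ψ_ξη = O(0)`. The packet is `p = ψ_κ e_ξ - ψ_ξ e_κ`.
* `(p·∇)p`: `ξ`: `ψ_κ ψ_κξ - ψ_ξ ψ_κκ = λ² A A_ξ (c² + s²) + O(1)`, and `λ² A A_ξ = λ² e^{-2τ} a ∂_ξ a`
  cancels the first term of `pke`; `κ`: `-ψ_κ ψ_ξξ + ψ_ξ ψ_ξκ = O(1)`.
* `(∂_t - νΔ)ψ = (-νΔA + 2νλB_κ) s + (λ⁻¹ e ∂_t B~ - 2νλ A_κ - νΔB) c`, `B~ = bt`,
  `∂_t B~ = λ²(2ν a_κ - a m_κ)`: the `c` coefficient is `-λ A m_κ - νΔB`. Its `∂_κ` is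
  `λ² A m_κ s + O(1)`, its `∂_ξ` is `O(1)`.
* `(m·∇)p`: `ξ`: `m_κ ψ_κκ + m_ξ ψ_κξ + m_η ψ_κη = -λ² A m_κ s + O(1)`: cancels. `κ`: `O(1)`.
* `(p·∇)m = O(1)`.
So `pke = O(1)` in this sense. The same expansions give the bounds of `pkt`, its Jacobian
(order `2`) and its time derivative. -/
def S_PK : Prop := ∀ (ν : ℝ) (U0 V : E3 → E3) (a : E3 → ℝ) (l : Fin 3), 0 < ν → Sm U0 → Sm V →
    Sm a → ∃ Q : ℝ, 0 < Q ∧ ∀ lam : ℝ, 1 ≤ lam → ∀ t : ℝ, 0 ≤ t → ∀ x : E3,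
      ‖pke ν lam U0 V a l t x‖ ≤ Q * (lam * wt ν lam t) ∧
      ‖deriv (fun s => pke ν lam U0 V a l s x) t‖ ≤ Q * (lam ^ 3 * wt ν lam t) ∧
      ‖pkt ν lam U0 V a l t x‖ ≤ Q * (lam * wt ν lam t) ∧
      ‖deriv (fun s => pkt ν lam U0 V a l s x) t‖ ≤ Q * (lam ^ 3 * wt ν lam t) ∧
      ‖jac (pkt ν lam U0 V a l t) x‖ ≤ Q * (lam ^ 2 * wt ν lam t)

/-- **PS**. Smoothness, support and divergence of the packets. Proof. `pkt` is a `curl` of a jointly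
smooth function with support in `tsupport a`; `∂_ξ ∂_κ ψ - ∂_κ ∂_ξ ψ = 0`. -/
def S_PS : Prop := ∀ (ν lam : ℝ) (U0 V : E3 → E3) (a : E3 → ℝ) (l : Fin 3), Sm U0 → Sm V → Sm a →
    SmF (tsupport a) (pkt ν lam U0 V a l) ∧
    ∀ t x, ∑ i, pd i (fun y => pkt ν lam U0 V a l t y i) x = 0

/-- **RES** (from `S_PK`, `S_PS`): the approximate solution `cur`. Proof. The supports of the
packets are disjoint, so all products of different packets vanish identically, and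
`resid = [ν Δm - (m·∇)m] + ∑_l pke_l + (terms with λ²)`: the `λ²` terms are
`2νλ² e^{-2τ} V + ∇P - ∑_l λ² e^{-2τ} a_l ∂_l a_l e_l = 0` by the equation for `ϖ`. The first bracket
is bounded with its time derivative (`≤ Cλ² e^{-2τ}`). Near `1/λ`: `λ w(1/λ) ≤ C/λ`,
`λ² w(1/λ) ≤ C`, `e^{-2νλ} ≤ C/λ`. -/
def S_RES : Prop := ∀ (ν : ℝ) (Kc : Set E3) (U0 V : E3 → E3) (a : Fin 3 → E3 → ℝ) (w : E3 → ℝ),
    0 < ν → IsCompact Kc → Sm U0 → Sm V → (∀ l, Sm (a l)) → Sm w → tsupport U0 ⊆ Kc →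
    tsupport V ⊆ Kc → (∀ l, tsupport (a l) ⊆ Kc) → tsupport w ⊆ Kc →
    (∀ x, ∑ i, pd i (fun y => U0 y i) x = 0) → (∀ x, ∑ i, pd i (fun y => V y i) x = 0) →
    (∀ j l, j ≠ l → Disjoint (tsupport (a j)) (tsupport (a l))) →
    (∀ x i, -(2 * ν * V x i) + a i x * pd i (a i) x = pd i w x) →
    ∃ Q : ℝ, 0 < Q ∧ ∀ lam : ℝ, 1 ≤ lam →
      SmF Kc (cur ν lam U0 V a) ∧ SmF Kc (prs ν lam w) ∧
      (∀ t x, ∑ i, pd i (fun y => cur ν lam U0 V a t y i) x = 0) ∧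
      (∀ t, 0 ≤ t → ∀ x, ‖cur ν lam U0 V a t x‖ ≤ Q * (lam * wt ν lam t + 1) ∧
        ‖deriv (fun s => cur ν lam U0 V a s x) t‖ ≤ Q * (lam ^ 3 * wt ν lam t + 1) ∧
        ‖resid ν (cur ν lam U0 V a) (prs ν lam w) t x‖ ≤ Q * (lam * wt ν lam t + 1) ∧
        ‖deriv (fun s => resid ν (cur ν lam U0 V a) (prs ν lam w) s x) t‖
          ≤ Q * (lam ^ 3 * wt ν lam t + 1)) ∧
      ∀ x, ‖cur ν lam U0 V a (1 / lam) x - U0 x‖ ≤ Q / lam ∧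
        ‖jac (cur ν lam U0 V a (1 / lam)) x‖ ≤ Q

/-- **OSC**. The packets tend to `0` weakly. Proof. At `t = 0`, `ψ = a sin(λ x_κ)`; by parts
`∫ (∂_κ ψ φ_ξ - ∂_ξ ψ φ_κ) = ∫ a sin(λx_κ) (∂_ξ φ_κ - ∂_κ φ_ξ)`, which is `O(1/λ)` by one more
integration by parts (or the Riemann-Lebesgue lemma). -/
def S_OSC : Prop := ∀ (ν : ℝ) (U0 V : E3 → E3) (a : E3 → ℝ) (l : Fin 3) (φ : E3 → E3),
    Sm U0 → Sm V → Sm a → Sm φ →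
    Tendsto (fun lam : ℝ => ∫ x, ∑ i, pkt ν lam U0 V a l 0 x i * φ x i) atTop (𝓝 0)

/-! ## The cells -/

/-- **CELL**. Existence of the cell functions. Proof (radial). Let `χ : ℝ → ℝ` be smooth, supported
in `[1/16, 1/8]`, not zero, and `β_k(s) = μ_k^{-3/2} χ(s/μ_k²)`... precisely: `α_0(x) = χ(|x|²)`,
`α_1(x) = μ^{-3/2} χ(|x|²/μ²)`, `α_2(x) = μ^{-3} χ(|x|²/μ⁴)` with `μ² = 5/2`: the supports are the
shells `|x|² ∈ [1/16, 1/8]`, `[5/32, 5/16]`, `[25/64, 25/32]`, disjoint, in the unit ball, and the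
integrals of `α_k²` are equal. Let `G_k(s) = (1/2) ∫_0^s √r β_k(r) dr`, `β_k(|x|²) = α_k(x)²`
(smooth in `s`; zero for `s < 1/16`, constant `= M`, the same for all `k`, for `s > 25/32`; `G_k(s) =
G_0(s/μ^{2k})`). Then `div(x g(|x|²)) = 3g + 2s g'`, so for `g = s^{-3/2}(G_k - G_2)` (smooth, support
in `[1/16, 25/32]`) `div(x g) = 2 s^{-1/2} (G_k' - G_2') = α_k² - α_2²`. Put
`b_k(x) = -(1/2) ∫_{|x|²}^1 g(r) dr`; `∇b_k = x g(|x|²)`, so `Δb_k = α_k² - α_2²`. `A = α_2²`,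
`b_2 = 0`. `G_k ≥ G_2` (`G_0` is nondecreasing), `≢`, so `b_0 ≤ 0`, `∫ b_0 < 0 = ∫ b_2`. -/
def S_CELL : Prop := ∃ (α b : Fin 3 → E3 → ℝ) (A : E3 → ℝ), Cell α b A

/-- **GEO**. Rescaled cells satisfy the hypotheses of `S_RES`: with `ρ, β > 0`,
`a_l = 2 √(νβ) ρ⁻¹ α_{σ l}((x - x0)/ρ)`, `V = β cellV`,
`ϖ = 2ν β (ρ⁻² A((x - x0)/ρ) + ∑_l ∂_l² b_{σ l}((x - x0)/ρ))`. Proof.
`a_i ∂_i a_i = ∂_i (a_i²)/2 = 2νβ ρ⁻² ∂_i [(A + (Δb_{σ i}))((x - x0)/ρ)] =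
2νβ ∂_i (ρ⁻² A(..) + Δ[b_{σ i}(..)])`. `div cellV = ∑_i ∂_i² Δ b_{σ i} - Δ ∑_l ∂_l² b_{σ l} = 0`. -/
def S_GEO : Prop := ∀ (α b : Fin 3 → E3 → ℝ) (A : E3 → ℝ), Cell α b A →
    ∀ (ν β ρ : ℝ) (x0 : E3) (σ : Equiv.Perm (Fin 3)), 0 < ν → 0 < β → 0 < ρ →
    ∃ (a : Fin 3 → E3 → ℝ) (w : E3 → ℝ), (∀ l, Sm (a l)) ∧ Sm w ∧
      Sm (fun x => β • cellV b x0 ρ σ x) ∧
      tsupport (fun x => β • cellV b x0 ρ σ x) ⊆ Metric.closedBall x0 ρ ∧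
      (∀ l, tsupport (a l) ⊆ Metric.closedBall x0 ρ) ∧ tsupport w ⊆ Metric.closedBall x0 ρ ∧
      (∀ x, ∑ i, pd i (fun y => (β • cellV b x0 ρ σ y : E3) i) x = 0) ∧
      (∀ j l, j ≠ l → Disjoint (tsupport (a j)) (tsupport (a l))) ∧
      ∀ x i, -(2 * ν * (β • cellV b x0 ρ σ x : E3) i) + a i x * pd i (a i) x = pd i w x

/-- `curl curl φ = ∇ div φ - Δ φ`, component `i`. -/
noncomputable def cc (φ : E3 → E3) (i : Fin 3) (x : E3) : ℝ :=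
  pd i (fun y => ∑ j, pd j (fun z => φ z j) y) x - lapS (fun y => φ y i) x

/-- **MOM**. `∫ cellV · φ = ∑_l ∫ b_{σ l}((x - x0)/ρ) ∂_l (curl curl φ)_l`. Proof. Integrations by
parts: `∫ ∂_i Δb_i φ_i = -∫ b_i Δ ∂_i φ_i`, `-∫ ∂_i(∑_l ∂_l² b_l) φ_i = ∑_l ∫ ∂_l² b_l ∂_i φ_i`. -/
def S_MOM : Prop := ∀ (b : Fin 3 → E3 → ℝ), (∀ k, ContDiff ℝ ∞ (b k)) →
    (∀ k, tsupport (b k) ⊆ Metric.closedBall 0 1) → ∀ (φ : E3 → E3), Sm φ →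
    ∀ (x0 : E3) (ρ : ℝ) (σ : Equiv.Perm (Fin 3)), 0 < ρ →
    ∫ x, ∑ i, cellV b x0 ρ σ x i * φ x i
      = ∑ l, ∫ x, scl x0 ρ (b (σ l)) x * pd l (cc φ l) x

/-- **CUR**. A compactly supported smooth field with `∂_l (curl curl φ)_l = 0` for each `l` is
orthogonal to `L²_σ`. Proof. `Ψ = curl curl φ` is smooth with compact support and `∂_l Ψ_l = 0`, so
`Ψ_l` is constant on the lines parallel to `e_l`, hence `Ψ_l = 0`. So `0 = ∫ Ψ·φ = ∫ |curl φ|²`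
(`∫ ∂_i(div φ) φ_i = -∫ (div φ)²`, ..., or directly with `∂_i φ_j - ∂_j φ_i`), so `∂_i φ_j = ∂_j φ_i`.
For a test field `w`: `∫ φ·w = 0`: e.g. `φ = ∇χ`, `χ(x) = ∫_{-∞}^0 φ_0(x + s e_0) ds`, smooth, and
`∫ ∇χ·w = -∫ χ div w = 0` (multiply `χ` by a cutoff). By density of the test fields the same for
`w ∈ L2sigma Ω`. -/
def S_CUR : Prop := ∀ (Ω : Set E3), IsOpen Ω → ∀ φ : E3 → E3, Sm φ →
    (∀ l x, pd l (cc φ l) x = 0) → ∀ w : L2V Ω, w ∈ L2sigma Ω →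
    ∫ x in Ω, ∑ i, w x i * φ x i = 0

/-- **DUAL** (from `S_MOM`, `S_CUR`): the span of the cells is dense. Proof. Let `Λ(v) =
(∫ v·φ_i)_i ∈ ℝⁿ` and let `S ⊆ ℝⁿ` be the set of the finite sums `∑ β_j Λ(cellV_j)`, `β_j > 0`, all
cells in `Ω` (with `0`). It is a convex cone, and `-Λ(cellV_σ) = Λ(cellV_{σc}) + Λ(cellV_{σc²})`, `c`
the cyclic permutation (for the same `x0, ρ`: the three fields add up to `0` because `∑_k b_k` is the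
same in all directions), so `S` is a subspace. If `Λ(w) ∉ S` there is `c ∈ ℝⁿ`, `c ⊥ S`,
`c·Λ(w) ≠ 0`. Put `φ = ∑ c_i φ_i`. For `x0 ∈ Ω` and all small `ρ`: `0 = ρ⁻³ ∫ cellV·φ =
ρ⁻³ ∑_l ∫ b_{σ l}((x-x0)/ρ) ψ_l → ∑_l m_{σ l} ψ_l(x0)`, `ψ_l = ∂_l (cc φ)_l`, `m_k = ∫ b_k`. For a
transposition `(i j)` and `σ` with `m_{σ i} ≠ m_{σ j}` the difference gives `ψ_i(x0) = ψ_j(x0)`; and
`∑_l ψ_l = 0` (`div curl curl = 0`), so `ψ_l(x0) = 0`. Off `Ω`, `ψ_l = 0` because `φ` has support in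
`Ω`. `S_CUR`: `c·Λ(w) = ∫ w·φ = 0`, a contradiction. -/
def S_DUAL : Prop := ∀ (α b : Fin 3 → E3 → ℝ) (A : E3 → ℝ), Cell α b A →
    ∀ (Ω : Set E3), IsOpen Ω → ∀ (n : ℕ) (φ : Fin n → E3 → E3), (∀ i, Sm (φ i)) →
    (∀ i, tsupport (φ i) ⊆ Ω) → ∀ w : L2V Ω, w ∈ L2sigma Ω →
    ∃ (N : ℕ) (x0 : Fin N → E3) (ρ β : Fin N → ℝ) (σ : Fin N → Equiv.Perm (Fin 3)),
      (∀ j, 0 < ρ j) ∧ (∀ j, 0 < β j) ∧ (∀ j, Metric.closedBall (x0 j) (ρ j) ⊆ Ω) ∧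
      ∀ i, ∑ j, ∫ x, ∑ k, (β j • cellV b (x0 j) (ρ j) (σ j) x : E3) k * φ i x k
        = ∫ x in Ω, ∑ k, w x k * φ i x k

/-! ## The end -/

/-- The class of a test field, its Jacobian; global strong solutions from it. -/
def Good (Ω : Set E3) (ν : ℝ) (g : E3 → E3) (U : ℝ → L2V Ω) (Y : ℝ → L2M Ω) : Prop :=
  IsTest Ω g ∧ U 0 =ᵐ[volume.restrict Ω] g ∧
    ∃ (U1 : ℝ → L2V Ω) (Y1 : ℝ → L2M Ω), Glob (graphW Ω) (tensL (Ω := Ω)) ν U U1 Y Y1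

/-- **STEP** (from `S_ONE`, `S_LIFT`, `S_RES`, `S_OSC`, `S_GEO`): one cell. Library: `exists_frame`,
`rellich_W`, `W52.TQ.proof_univ`. Proof. `K = tsupport g ∪ closedBall x0 ρ`, `cur` with `U0 = g`,
`V = β cellV`; `g' = cur ... 0`; `∫ g'·φ_i - ∫ g·φ_i - ∫ β cellV·φ_i = ∑_l ∫ pkt·φ_i → 0`. -/
def S_STEP : Prop := ∀ (α b : Fin 3 → E3 → ℝ) (A : E3 → ℝ), Cell α b A →
    ∀ (Ω : Set E3), IsOpen Ω → Bornology.IsBounded Ω → ∀ (ν : ℝ), 0 < ν →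
    ∀ (g : E3 → E3) (U : ℝ → L2V Ω) (Y : ℝ → L2M Ω), Good Ω ν g U Y →
    ∀ (x0 : E3) (ρ β : ℝ) (σ : Equiv.Perm (Fin 3)), 0 < ρ → 0 < β →
    Metric.closedBall x0 ρ ⊆ Ω → ∀ (n : ℕ) (φ : Fin n → E3 → E3), (∀ i, Sm (φ i)) →
    ∀ η : ℝ, 0 < η → ∃ (g' : E3 → E3) (U' : ℝ → L2V Ω) (Y' : ℝ → L2M Ω), Good Ω ν g' U' Y' ∧
      (∀ i, |(∫ x, ∑ k, g' x k * φ i x k) - (∫ x, ∑ k, g x k * φ i x k)
        - ∫ x, ∑ k, (β • cellV b x0 ρ σ x : E3) k * φ i x k| ≤ η) ∧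
      ∀ t, η ≤ t → ‖U' t - U t‖ ≤ η ∧ (∫ r in η..t, ‖Y' r - Y r‖ ^ 2) ≤ η ^ 2

/-- **APX** (from `S_CONT`): a global strong solution is approximated by solutions from test
fields. Proof. `(U 0, Y 0) ∈ graphW Ω` is the limit of pairs of a test field `g` and its Jacobian;
`S_CONT` with `t1 = 0`, `N1 = ‖Y 0‖ + 1`, `N0 = N1 + 1`; the compatibility with
`g0 = ν Δg - (g·∇)g` is `S_WI` (with `h = 0`, `P = 0`). -/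
def S_APX : Prop := ∀ (Ω : Set E3), IsOpen Ω → Bornology.IsBounded Ω → ∀ (ν : ℝ), 0 < ν →
    ∀ (U U1 : ℝ → L2V Ω) (Y Y1 : ℝ → L2M Ω), Glob (graphW Ω) (tensL (Ω := Ω)) ν U U1 Y Y1 →
    ∀ η : ℝ, 0 < η → ∃ (g : E3 → E3) (U' : ℝ → L2V Ω) (Y' : ℝ → L2M Ω), Good Ω ν g U' Y' ∧
      ∀ t, 0 ≤ t → ‖U' t - U t‖ ≤ η ∧ (∫ r in (0 : ℝ)..t, ‖Y' r - Y r‖ ^ 2) ≤ η ^ 2

/-- **FIN** (from `S_CELL`, `S_DUAL`, `S_STEP`, `S_APX`): the theorem, internal form. Proof. `S_APX`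
with `η = ε/2` gives `g`, and `S_DUAL` for `u0 - [g]` gives `N` cells; apply `S_STEP` `N` times with
`η = ε/(2(N+1))` small (induction on `N`; `‖f₁ + f₂‖_{L²} ≤ ..` for the integrals). -/
def S_FIN : Prop := ∀ (Ω : Set E3), IsOpen Ω → Bornology.IsBounded Ω → ∀ (ν : ℝ), 0 < ν →
    ∀ (U U1 : ℝ → L2V Ω) (Y Y1 : ℝ → L2M Ω), Glob (graphW Ω) (tensL (Ω := Ω)) ν U U1 Y Y1 →
    ∀ u0 : L2V Ω, u0 ∈ L2sigma Ω → ∀ (n : ℕ) (φ : Fin n → E3 → E3), (∀ i, Sm (φ i)) →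
    (∀ i, tsupport (φ i) ⊆ Ω) → ∀ ε : ℝ, 0 < ε →
    ∃ (g : E3 → E3) (U' : ℝ → L2V Ω) (Y' : ℝ → L2M Ω), Good Ω ν g U' Y' ∧
      (∀ i, |(∫ x in Ω, ∑ k, g x k * φ i x k) - ∫ x in Ω, ∑ k, u0 x k * φ i x k| ≤ ε) ∧
      ∀ t, ε ≤ t → ‖U' t - U t‖ ≤ ε ∧ (∫ r in ε..t, ‖Y' r - Y r‖ ^ 2) ≤ ε ^ 2

end Run7.h744.DD
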