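import Pool.Agent.Run7.h744.DD.Iface
import Pool.Agent.W795.TQ.DPub
import Pool.Agent.W790.TQ.Est2
import Pool.Agent.W503.TQ.Base

/-!
Project DD: from the public definition of strong solutions to the internal one.
-/

set_option autoImplicit false
set_option linter.unusedSectionVars false
set_option maxHeartbeats 4000000

open MeasureTheory Set Filter Topology
open scoped InnerProductSpace ContDiff

namespace Run7.h744.DD

open Pool.Agent.W795.TQ (Str Univ FH)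
open H772R2.NSR (Frame prim_cont ii_of_cont ae_deriv_of_prim memLp_ii hasDerivAt_prim)
open H772R2.NSG (mem_cont int_inner ii_of_int)

section

variable {H K : Type} [NormedAddCommGroup H] [InnerProductSpace ℝ H] [CompleteSpace H]
  [NormedAddCommGroup K] [InnerProductSpace ℝ K] [CompleteSpace K]
  {W : Submodule ℝ (H × K)} {m : H → K} {C ν T : ℝ} {F : ℝ → K} {u u1 : ℝ → H} {z z1 : ℝ → K}

/-- continuity of `m u` -/
theorem m_cont (Fr : Frame W m C) (hm : ∀ t ∈ Icc 0 T, (u t, z t) ∈ W)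
    (hu : ContinuousOn u (Icc 0 T)) (hz : ContinuousOn z (Icc 0 T)) :
    ContinuousOn (fun s => m (u s)) (Icc 0 T) := by
  intro t ht
  rw [ContinuousWithinAt, tendsto_iff_norm_sub_tendsto_zero]
  have h1 : Tendsto (fun s => C * (‖u s - u t‖ * ‖z s - z t‖ ^ 3 * (‖z s‖ + ‖z t‖) ^ 4))
      (𝓝[Icc 0 T] t) (𝓝 (C * (0 * 0 ^ 3 * (‖z t‖ + ‖z t‖) ^ 4))) :=
    (((tendsto_iff_norm_sub_tendsto_zero.mp (hu t ht)).mul
      ((tendsto_iff_norm_sub_tendsto_zero.mp (hz t ht)).pow 3)).mul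
      (((hz t ht).norm.add_const _).pow 4)).const_mul _
  have e0 : C * (0 * 0 ^ 3 * (‖z t‖ + ‖z t‖) ^ 4) = 0 := by ring
  rw [e0] at h1
  rw [Metric.tendsto_nhds]
  intro ε hε
  filter_upwards [h1.eventually (gt_mem_nhds (pow_pos hε 4)), self_mem_nhdsWithin] with s hs hsI
  rw [dist_zero_right, norm_norm]
  have h2 := Fr.lips _ (hm s hsI) _ (hm t ht)
  exact lt_of_pow_lt_pow_left₀ 4 hε.le (lt_of_le_of_lt h2 hs)

/-- the equation at almost every time -/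
theorem ae_weak (Fr : Frame W m C) (hT : 0 < T) (hF : ContinuousOn F (Icc 0 T))
    (hm : ∀ t ∈ Icc 0 T, (u t, z t) ∈ W) (u1m : MemLp u1 2 (volume.restrict (Ioc 0 T)))
    (z1m : MemLp z1 2 (volume.restrict (Ioc 0 T)))
    (pu : ∀ a b, 0 ≤ a → a ≤ b → b ≤ T → u b - u a = ∫ s in a..b, u1 s)
    (pz : ∀ a b, 0 ≤ a → a ≤ b → b ≤ T → z b - z a = ∫ s in a..b, z1 s)
    (weak : ∀ p ∈ W, ∀ t ∈ Icc 0 T, ⟪u t - u 0, p.1⟫_ℝ
      = ∫ s in (0 : ℝ)..t, ⟪F s - ν • z s + m (u s), p.2⟫_ℝ) :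
    ∀ᵐ s ∂(volume.restrict (Ioc 0 T)), ∀ p ∈ W,
      ⟪u1 s, p.1⟫_ℝ = ⟪F s - ν • z s + m (u s), p.2⟫_ℝ := by
  have hu := prim_cont u1m pu
  have hz := prim_cont z1m pz
  have hgc : ContinuousOn (fun s => F s - ν • z s + m (u s)) (Icc 0 T) :=
    (hF.sub (hz.const_smul ν)).add (m_cont Fr hm hu hz)
  have hne : ∀ᵐ s ∂(volume.restrict (Ioc 0 T)), s ≠ T := by
    refine ae_restrict_of_ae ?_
    simp [ae_iff, measure_singleton]
  filter_upwards [ae_deriv_of_prim hT (memLp_ii hT.le u1m) pu,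
    ae_restrict_mem measurableSet_Ioc, hne] with s hd hs hsT p hp
  have hs' : s ∈ Ioo 0 T := ⟨hs.1, lt_of_le_of_ne hs.2 hsT⟩
  have h1 : HasDerivAt (fun t => ⟪u t, p.1⟫_ℝ) ⟪u1 s, p.1⟫_ℝ s := by
    have := hd.inner ℝ (hasDerivAt_const s p.1)
    simpa using this
  have h2 : HasDerivAt (fun t => ⟪u 0, p.1⟫_ℝ + ∫ r in (0 : ℝ)..t,
      ⟪F r - ν • z r + m (u r), p.2⟫_ℝ) ⟪F s - ν • z s + m (u s), p.2⟫_ℝ s :=
    (hasDerivAt_prim (β := fun r => ⟪F r - ν • z r + m (u r), p.2⟫_ℝ)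
      (hgc.inner continuousOn_const) hs').const_add _
  refine h1.unique (h2.congr_of_eventuallyEq ?_)
  filter_upwards [Icc_mem_nhds hs'.1 hs'.2] with t ht
  rw [← weak p hp t ht, inner_sub_left]
  ring

/-- the energy equality -/
theorem energy_of_weak (Fr : Frame W m C) (hT : 0 < T) (hF : ContinuousOn F (Icc 0 T))
    (hm : ∀ t ∈ Icc 0 T, (u t, z t) ∈ W) (u1m : MemLp u1 2 (volume.restrict (Ioc 0 T)))
    (z1m : MemLp z1 2 (volume.restrict (Ioc 0 T)))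
    (pu : ∀ a b, 0 ≤ a → a ≤ b → b ≤ T → u b - u a = ∫ s in a..b, u1 s)
    (pz : ∀ a b, 0 ≤ a → a ≤ b → b ≤ T → z b - z a = ∫ s in a..b, z1 s)
    (weak : ∀ p ∈ W, ∀ t ∈ Icc 0 T, ⟪u t - u 0, p.1⟫_ℝ
      = ∫ s in (0 : ℝ)..t, ⟪F s - ν • z s + m (u s), p.2⟫_ℝ) :
    ∀ t ∈ Icc 0 T, ‖u t‖ ^ 2 / 2 + ν * (∫ s in (0 : ℝ)..t, ‖z s‖ ^ 2)
      = ‖u 0‖ ^ 2 / 2 + ∫ s in (0 : ℝ)..t, ⟪F s, z s⟫_ℝ := by
  intro t ht
  have hz := prim_cont z1m pz
  have e1 := Pool.Agent.W790.TQ.sq_prim u1m pu le_rfl ht.1 ht.2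
  have hae := ae_weak Fr hT hF hm u1m z1m pu pz weak
  have hsub : (volume.restrict (Ioc 0 t) : Measure ℝ) ≤ volume.restrict (Ioc 0 T) :=
    Measure.restrict_mono (Ioc_subset_Ioc_right ht.2) le_rfl
  have e2 : ∫ s in (0 : ℝ)..t, 2 * ⟪u1 s, u s⟫_ℝ
      = ∫ s in (0 : ℝ)..t, (2 * ⟪F s, z s⟫_ℝ - 2 * (ν * ‖z s‖ ^ 2)) := by
    rw [intervalIntegral.integral_of_le ht.1, intervalIntegral.integral_of_le ht.1]
    refine integral_congr_ae ?_
    filter_upwards [ae_mono hsub hae, ae_restrict_mem measurableSet_Ioc] with s hs hsI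
    have hsW := hm s ⟨hsI.1.le, hsI.2.trans ht.2⟩
    have k1 := hs _ hsW
    have k2 := Fr.ortho _ hsW
    simp only at k1 k2
    rw [k1, inner_add_left, inner_sub_left, k2, real_inner_smul_left, real_inner_self_eq_norm_sq]
    ring
  have c1 : ContinuousOn (fun s => ⟪F s, z s⟫_ℝ) (Icc 0 T) := hF.inner hz
  have c2 : ContinuousOn (fun s => ‖z s‖ ^ 2) (Icc 0 T) := hz.norm.pow 2
  rw [e2, intervalIntegral.integral_sub ((ii_of_cont c1 le_rfl ht.1 ht.2).const_mul 2)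
    (((ii_of_cont c2 le_rfl ht.1 ht.2).const_mul ν).const_mul 2),
    intervalIntegral.integral_const_mul, intervalIntegral.integral_const_mul,
    intervalIntegral.integral_const_mul] at e1
  linarith

end

open H772R2.NS H772R2.NS.Pub H772R2.NSR H772R2.NSG Pool.Agent.W795.TQ

/-- strong solutions in the public sense are strong solutions in the internal sense -/
theorem str_of_strong {Ω : Set E3} (hΩ : IsOpen Ω) {C ν T : ℝ} (hT : 0 < T)
    (Fr : Frame (graphW Ω) (tensL (Ω := Ω)) C) {F : ℝ → L2M Ω} (hF : ContinuousOn F (Icc 0 T))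
    {u u1 : ℝ → L2V Ω} {z z1 : ℝ → L2M Ω}
    (S : IsStrong (show Set R3 from Ω) ν T F u u1 z z1) :
    Str (graphW Ω) tensL ν T F u u1 z z1 := by
  have hm : MeasurableSet Ω := hΩ.measurableSet
  have hmem : ∀ t ∈ Icc 0 T, (u t, z t) ∈ graphW Ω := fun t ht => mem_pub.mpr (S.grad t ht)
  have hu : ContinuousOn u (Icc 0 T) := prim_cont S.hu.memLp S.hu.prim
  have hz : ContinuousOn z (Icc 0 T) := prim_cont S.hG.memLp S.hG.prim
  have hgc : ContinuousOn (fun s => F s - ν • z s + tensL (u s)) (Icc 0 T) :=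
    (hF.sub (hz.const_smul ν)).add (m_cont Fr hmem hu hz)
  have weak : ∀ p ∈ graphW Ω, ∀ t ∈ Icc 0 T, ⟪u t - u 0, p.1⟫_ℝ
      = ∫ s in (0 : ℝ)..t, ⟪F s - ν • z s + tensL (u s), p.2⟫_ℝ := by
    intro p hp t ht
    have hGi : Integrable (fun s => F s - ν • z s + tensL (u s)) (volume.restrict (Ioc 0 T)) :=
      (mem_cont (p := 1) hgc).integrable le_rfl
    have hGt : Integrable (fun s => F s - ν • z s + tensL (u s)) (volume.restrict (Ioc 0 t)) :=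
      hGi.mono_measure (Measure.restrict_mono (Ioc_subset_Ioc_right ht.2) le_rfl)
    set I : L2M Ω := ∫ s in (0 : ℝ)..t, (F s - ν • z s + tensL (u s)) with hI
    have hint : ∀ q : L2V Ω × L2M Ω, ∫ s in (0 : ℝ)..t, ⟪F s - ν • z s + tensL (u s), q.2⟫_ℝ
        = ⟪I, q.2⟫_ℝ := by
      intro q
      rw [hI, intervalIntegral.integral_of_le ht.1, intervalIntegral.integral_of_le ht.1]
      have := integral_inner (𝕜 := ℝ) hGt q.2
      rw [real_inner_comm, ← this]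
      exact integral_congr_ae (Eventually.of_forall fun s => real_inner_comm _ _)
    have key := graphW_induction (fun q : L2V Ω × L2M Ω => ⟪u t - u 0, q.1⟫_ℝ - ⟪I, q.2⟫_ℝ)
      (by fun_prop) (by
      rintro q ⟨φ, k1, k2, k3⟩
      have e := S.eqn φ ((isTest_iff φ).mpr k1) t ht
      have e1 := pub_inner (Ω := Ω) (u t) k2
      have e2 := pub_inner (Ω := Ω) (u 0) k2
      have e3 : ∫ s in (0 : ℝ)..t, Pub.rhs (Ω := Ω) ν (u s) (z s) (F s) φ
          = ∫ s in (0 : ℝ)..t, ⟪F s - ν • z s + tensL (u s), q.2⟫_ℝ := by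
        refine intervalIntegral.integral_congr ?_
        intro s hs
        rw [uIcc_of_le ht.1] at hs
        exact pub_rhs hm ν (F s) (hmem s ⟨hs.1, hs.2.trans ht.2⟩) k3
      have h2 : ⟪u t - u 0, q.1⟫_ℝ = ⟪u t, q.1⟫_ℝ - ⟪u 0, q.1⟫_ℝ := inner_sub_left _ _ _
      have e' := ((congrArg₂ (· - ·) e1 e2).symm.trans e).trans (e3.trans (hint q))
      show ⟪u t - u 0, q.1⟫_ℝ - ⟪I, q.2⟫_ℝ = 0
      rw [h2]
      exact sub_eq_zero.mpr e') hp
    have key' : ⟪u t - u 0, p.1⟫_ℝ = ⟪I, p.2⟫_ℝ := sub_eq_zero.mp key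
    rw [key', ← hint p]
  refine ⟨hmem, ?_, S.bdd, S.hu.memLp, S.hG.memLp, S.hu.prim, S.hG.prim, weak, ?_⟩
  · filter_upwards [S.gradDeriv] with t ht
    exact mem_pub.mpr ht
  · exact energy_of_weak Fr hT hF hmem S.hu.memLp S.hG.memLp S.hu.prim S.hG.prim weak

end Run7.h744.DD
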